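import Pool.Agent.Helper73_ED.Statements

open MvPolynomial
open scoped Polynomial

namespace Helper73_ED

noncomputable section

/-- coefficient ring -/
abbrev AA (d : ℕ) := MvPolynomial (Fin (d + 1)) ℂ

/-- `F₁` over the generic coefficients -/
def fA (d : ℕ) : (AA d)[X][X] :=
  ∑ j : Fin (d + 1), Polynomial.C (Polynomial.C (X j) *
    (aP d j).map MvPolynomial.C) * Polynomial.X ^ (j : ℕ)

/-- `F₂` over the generic coefficients -/
def gA (d : ℕ) : (AA d)[X][X] :=
  ∑ j : Fin (d + 1), Polynomial.C (Polynomial.C (X j) *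
    (bP d j).map MvPolynomial.C) * Polynomial.X ^ (j : ℕ)

/-- generic resultant -/
def RA (d : ℕ) : (AA d)[X] := Polynomial.resultant (fA d) (gA d) d d

lemma map_map_C {d : ℕ} (U : Fin (d + 1) → ℂ) (p : ℂ[X]) :
    (p.map (MvPolynomial.C : ℂ →+* AA d)).map (eval U) = p := by
  rw [Polynomial.map_map]
  have : (eval U).comp (MvPolynomial.C : ℂ →+* AA d) = RingHom.id ℂ := by
    ext; simp
  rw [this, Polynomial.map_id]

lemma RA_map (d : ℕ) (U : Fin (d + 1) → ℂ) : (RA d).map (eval U) = RU d U := by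
  have h := Polynomial.resultant_map_map (fA d) (gA d) d d (Polynomial.mapRingHom (eval U))
  rw [RU, RA]
  rw [Polynomial.coe_mapRingHom] at h
  rw [← h]
  congr 1
  · simp only [fA, fU, Polynomial.map_sum]
    refine Finset.sum_congr rfl fun j _ => ?_
    simp [map_map_C]
  · simp only [gA, gU, Polynomial.map_sum]
    refine Finset.sum_congr rfl fun j _ => ?_
    simp [map_map_C]

/-- Nullstellensatz for a prime element of `ℂ[U][X]`. -/
lemma dvd_of_zero {d : ℕ} (g h : (AA d)[X]) (hg : Prime g)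
    (H : ∀ (U : Fin (d + 1) → ℂ) (r : ℂ), (g.map (eval U)).eval r = 0 →
      (h.map (eval U)).eval r = 0) : g ∣ h := by
  set e := finSuccEquiv ℂ (d + 1) with he
  have hg' : Prime (e.symm g) := by
    rw [MulEquiv.prime_iff e.symm]; exact hg
  have hI : (Ideal.span {e.symm g} : Ideal (MvPolynomial (Fin (d + 2)) ℂ)).IsPrime := by
    rw [Ideal.span_singleton_prime hg'.ne_zero]; exact hg'
  have hv := MvPolynomial.IsPrime.vanishingIdeal_zeroLocus (K := ℂ)
    (Ideal.span {e.symm g} : Ideal (MvPolynomial (Fin (d + 2)) ℂ))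
  have key : ∀ (p : (AA d)[X]) (x : Fin (d + 2) → ℂ),
      aeval x (e.symm p) = (p.map (eval (fun i => x i.succ))).eval (x 0) := by
    intro p x
    have h1 := eval_eq_eval_mv_eval' (fun i : Fin (d + 1) => x i.succ) (x 0) (e.symm p)
    rw [← he] at h1
    rw [AlgEquiv.apply_symm_apply] at h1
    have h2 : (Fin.cons (x 0) (fun i : Fin (d + 1) => x i.succ) : Fin (d + 2) → ℂ) = x := by
      funext i
      refine Fin.cases ?_ (fun i => ?_) i <;> simp
    rw [← h1, h2]
    rfl
  have hmem : e.symm h ∈ vanishingIdeal ℂ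
      (zeroLocus ℂ (Ideal.span {e.symm g} : Ideal (MvPolynomial (Fin (d + 2)) ℂ))) := by
    rw [mem_vanishingIdeal_iff]
    intro x hx
    rw [mem_zeroLocus_iff] at hx
    have h1 := hx (e.symm g) (Ideal.mem_span_singleton_self _)
    rw [key] at h1 ⊢
    exact H _ _ h1
  rw [hv, Ideal.mem_span_singleton] at hmem
  obtain ⟨q, hq⟩ := hmem
  refine ⟨e q, ?_⟩
  have := congrArg e hq
  rwa [map_mul, AlgEquiv.apply_symm_apply, AlgEquiv.apply_symm_apply] at this

/-- a polynomial over `ℂ[U]` vanishing under all specialisations vanishes -/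
lemma poly_zero_of_map {d : ℕ} (p : (AA d)[X])
    (H : ∀ U : Fin (d + 1) → ℂ, p.map (eval U) = 0) : p = 0 := by
  ext1 n
  rw [Polynomial.coeff_zero]
  apply MvPolynomial.funext
  intro U
  have := congrArg (fun q : ℂ[X] => q.coeff n) (H U)
  simpa [Polynomial.coeff_map] using this

lemma X_pow_dvd_of_map {d : ℕ} (p : (AA d)[X]) (N : ℕ)
    (H : ∀ U : Fin (d + 1) → ℂ, (Polynomial.X : ℂ[X]) ^ N ∣ p.map (eval U)) :
    (Polynomial.X : (AA d)[X]) ^ N ∣ p := by
  rw [Polynomial.X_pow_dvd_iff]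
  intro n hn
  apply MvPolynomial.funext
  intro U
  have := (Polynomial.X_pow_dvd_iff.1 (H U)) n hn
  simpa [Polynomial.coeff_map] using this

lemma X_sub_one_pow_dvd_of_map {d : ℕ} (p : (AA d)[X]) (N : ℕ)
    (H : ∀ U : Fin (d + 1) → ℂ, (Polynomial.X - 1 : ℂ[X]) ^ N ∣ p.map (eval U)) :
    (Polynomial.X - 1 : (AA d)[X]) ^ N ∣ p := by
  have h1 : (Polynomial.X : (AA d)[X]) ^ N ∣ p.comp (Polynomial.X + 1) := by
    apply X_pow_dvd_of_map
    intro U
    obtain ⟨q, hq⟩ := H U
    refine ⟨q.comp (Polynomial.X + 1), ?_⟩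
    rw [Polynomial.map_comp, hq]
    simp [Polynomial.mul_comp, Polynomial.pow_comp, Polynomial.sub_comp]
  obtain ⟨q, hq⟩ := h1
  refine ⟨q.comp (Polynomial.X - 1), ?_⟩
  have h2 := congrArg (fun r => Polynomial.comp r (Polynomial.X - 1)) hq
  simp only [Polynomial.comp_assoc, Polynomial.mul_comp, Polynomial.pow_comp,
    Polynomial.X_comp, Polynomial.add_comp, Polynomial.one_comp, sub_add_cancel,
    Polynomial.comp_X] at h2
  exact h2

end

end Helper73_ED
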