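import Pool.Agent.Helper73_ED.Alg1

open MvPolynomial
open scoped Polynomial

namespace Helper73_ED

noncomputable section

/-- rational parametrisation of the incidence variety: parameters `X 0 = r`, `X 1 = s`,
`X j = w_j` for `j ≥ 2`. -/
def phi (d : ℕ) (j : Fin (d + 1)) : AA d :=
  if (j : ℕ) = 0 then
    - ∑ l : Fin (d + 1), if 2 ≤ (l : ℕ) then
        X l * X 1 ^ ((l : ℕ) + 1) * Polynomial.aeval (X 0 : AA d) (mi d l 1) else 0
  else if (j : ℕ) = 1 then
    - ∑ l : Fin (d + 1), if 2 ≤ (l : ℕ) then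
        X l * X 1 ^ (l : ℕ) * Polynomial.aeval (X 0 : AA d) (mi d 0 l) else 0
  else Polynomial.aeval (X 0 : AA d) (mi d 0 1) * X 1 * X j

/-- substitution homomorphism -/
def Theta (d : ℕ) : (AA d)[X] →+* AA d :=
  Polynomial.eval₂RingHom ((aeval (phi d) : AA d →ₐ[ℂ] AA d) : AA d →+* AA d) (X 0)

lemma eval_Theta (d : ℕ) (y : Fin (d + 1) → ℂ) (f : (AA d)[X]) :
    eval y (Theta d f) = (f.map (eval (fun j => eval y (phi d j)))).eval (y 0) := by
  rw [Theta, Polynomial.coe_eval₂RingHom, Polynomial.hom_eval₂, Polynomial.eval_map, eval_X]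
  congr 1
  apply MvPolynomial.ringHom_ext
  · intro r; simp
  · intro i; simp

lemma eval_aeval_X0 {d : ℕ} (y : Fin (d + 1) → ℂ) (p : ℂ[X]) :
    eval y (Polynomial.aeval (X 0 : AA d) p) = p.eval (y 0) := by
  rw [Polynomial.aeval_def, Polynomial.hom_eval₂]
  have : (eval y).comp (algebraMap ℂ (AA d)) = RingHom.id ℂ := by
    ext; simp
  rw [this, eval_X]
  rfl

/-- the parametrisation hits every solution with `m₀₁(r) ≠ 0`, `s ≠ 0` -/
lemma phi_surj (d : ℕ) (hd : 4 ≤ d) (U : Fin (d + 1) → ℂ) (r s : ℂ) (hs : s ≠ 0)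
    (hm : (mi d 0 1).eval r ≠ 0) (h1 : F1 d U r s = 0) (h2 : F2 d U r s = 0) :
    ∃ y : Fin (d + 1) → ℂ, y 0 = r ∧ ∀ j, eval y (phi d j) = U j := by
  set m := (mi d 0 1).eval r with hmdef
  have hv1 : ((1 : Fin (d + 1)) : ℕ) = 1 := by
    rw [Fin.val_one']; exact Nat.mod_eq_of_lt (by omega)
  let y : Fin (d + 1) → ℂ := fun j =>
    if (j : ℕ) = 0 then r else if (j : ℕ) = 1 then s else U j / (m * s)
  have hy0 : y 0 = r := by simp [y]
  have hy1 : y 1 = s := by simp only [y, hv1]; simp
  have hyl : ∀ l : Fin (d + 1), 2 ≤ (l : ℕ) → y l = U l / (m * s) := by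
    intro l hl
    simp only [y]
    rw [if_neg (by omega), if_neg (by omega)]
  -- elimination identities
  have e1 : ∑ l : Fin (d + 1), U l * s ^ (l : ℕ) * (mi d l 1).eval r = 0 := by
    have : ∑ l : Fin (d + 1), U l * s ^ (l : ℕ) * (mi d l 1).eval r =
        (bP d 1).eval r * F1 d U r s - (aP d 1).eval r * F2 d U r s := by
      rw [F1, F2, Finset.mul_sum, Finset.mul_sum, ← Finset.sum_sub_distrib]
      refine Finset.sum_congr rfl fun l _ => ?_
      simp only [mi, Polynomial.eval_sub, Polynomial.eval_mul]; ring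
    rw [this, h1, h2]; ring
  have e2 : ∑ l : Fin (d + 1), U l * s ^ (l : ℕ) * (mi d 0 l).eval r = 0 := by
    have : ∑ l : Fin (d + 1), U l * s ^ (l : ℕ) * (mi d 0 l).eval r =
        (aP d 0).eval r * F2 d U r s - (bP d 0).eval r * F1 d U r s := by
      rw [F1, F2, Finset.mul_sum, Finset.mul_sum, ← Finset.sum_sub_distrib]
      refine Finset.sum_congr rfl fun l _ => ?_
      simp only [mi, Polynomial.eval_sub, Polynomial.eval_mul]; ring
    rw [this, h1, h2]; ring
  -- split off l = 0, 1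
  have split : ∀ f : Fin (d + 1) → ℂ, ∑ l, f l = f 0 + f 1 +
      ∑ l : Fin (d + 1), if 2 ≤ (l : ℕ) then f l else 0 := by
    intro f
    have h01 : (0 : Fin (d + 1)) ≠ 1 := by
      intro h; have := congrArg Fin.val h; rw [hv1] at this; simp at this
    have : ∀ l : Fin (d + 1), f l = (if l = 0 then f l else 0) + (if l = 1 then f l else 0) +
        (if 2 ≤ (l : ℕ) then f l else 0) := by
      intro l
      by_cases h0 : l = 0
      · subst h0; simp [h01]
      · by_cases h1' : l = 1
        · subst h1'; rw [hv1]; simp [h0]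
        · have : 2 ≤ (l : ℕ) := by
            have a0 : (l : ℕ) ≠ 0 := fun h => h0 (Fin.ext (by simpa using h))
            have a1 : (l : ℕ) ≠ 1 := fun h => h1' (Fin.ext (by rw [hv1]; exact h))
            omega
          simp [h0, h1', this]
    conv_lhs => rw [Finset.sum_congr rfl fun l _ => this l]
    rw [Finset.sum_add_distrib, Finset.sum_add_distrib]
    simp
  refine ⟨y, hy0, fun j => ?_⟩
  by_cases hj0 : (j : ℕ) = 0
  · have hj : j = 0 := Fin.ext (by simpa using hj0)
    subst hj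
    rw [phi, if_pos (by simp)]
    rw [map_neg, map_sum]
    have : ∀ l : Fin (d + 1), eval y (if 2 ≤ (l : ℕ) then
        X l * X 1 ^ ((l : ℕ) + 1) * Polynomial.aeval (X 0 : AA d) (mi d l 1) else 0) =
        (if 2 ≤ (l : ℕ) then U l * s ^ (l : ℕ) * (mi d l 1).eval r else 0) / m := by
      intro l
      by_cases hl : 2 ≤ (l : ℕ)
      · rw [if_pos hl, if_pos hl]
        simp only [map_mul, map_pow, eval_X, eval_aeval_X0, hy0, hy1, hyl l hl]
        field_simp
        try ring
      · rw [if_neg hl, if_neg hl]; simp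
    rw [Finset.sum_congr rfl fun l _ => this l, ← Finset.sum_div]
    have e1' := e1
    rw [split] at e1'
    have hm11 : (mi d ((1 : Fin (d + 1)) : ℕ) 1).eval r = 0 := by
      rw [hv1]; simp [mi]
    rw [hm11] at e1'
    have hm01 : (mi d ((0 : Fin (d + 1)) : ℕ) 1).eval r = m := by
      rw [hmdef]; simp
    rw [hm01] at e1'
    simp only [Fin.val_zero, pow_zero, mul_one, mul_zero, add_zero] at e1'
    field_simp
    linear_combination (-1 : ℂ) * e1'
  · by_cases hj1 : (j : ℕ) = 1
    · have hj : j = 1 := Fin.ext (by rw [hv1]; exact hj1)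
      subst hj
      rw [phi, if_neg hj0, if_pos hj1]
      rw [map_neg, map_sum]
      have : ∀ l : Fin (d + 1), eval y (if 2 ≤ (l : ℕ) then
          X l * X 1 ^ (l : ℕ) * Polynomial.aeval (X 0 : AA d) (mi d 0 l) else 0) =
          (if 2 ≤ (l : ℕ) then U l * s ^ (l : ℕ) * (mi d 0 l).eval r else 0) / (m * s) := by
        intro l
        by_cases hl : 2 ≤ (l : ℕ)
        · rw [if_pos hl, if_pos hl]
          simp only [map_mul, map_pow, eval_X, eval_aeval_X0, hy0, hy1, hyl l hl]
          field_simp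
        · rw [if_neg hl, if_neg hl]; simp
      rw [Finset.sum_congr rfl fun l _ => this l, ← Finset.sum_div]
      have e2' := e2
      rw [split] at e2'
      have hm00 : (mi d 0 ((0 : Fin (d + 1)) : ℕ)).eval r = 0 := by
        simp [mi]
      rw [hm00] at e2'
      have hm01 : (mi d 0 ((1 : Fin (d + 1)) : ℕ)).eval r = m := by
        rw [hmdef, hv1]
      rw [hm01] at e2'
      simp only [hv1, pow_one, mul_zero, zero_add] at e2'
      field_simp
      linear_combination (-1 : ℂ) * e2'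
    · rw [phi, if_neg hj0, if_neg hj1]
      simp only [map_mul, eval_X, eval_aeval_X0, hy0, hy1, hyl j (by omega)]
      rw [← hmdef]
      field_simp

/-- elements of the kernel vanish on the incidence variety -/
lemma ker_vanish (d : ℕ) (hd : 4 ≤ d) (f : (AA d)[X]) (hf : Theta d f = 0)
    (U : Fin (d + 1) → ℂ) (r s : ℂ) (hs : s ≠ 0)
    (hm : (mi d 0 1).eval r ≠ 0) (h1 : F1 d U r s = 0) (h2 : F2 d U r s = 0) :
    (f.map (eval U)).eval r = 0 := by
  obtain ⟨y, hy0, hy⟩ := phi_surj d hd U r s hs hm h1 h2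
  have := eval_Theta d y f
  rw [hf, map_zero] at this
  have hU : (fun j => eval y (phi d j)) = U := funext hy
  rw [hU, hy0] at this
  exact this.symm

lemma ker_ne_bot (hD : DimStatement) (d : ℕ) : RingHom.ker (Theta d) ≠ ⊥ := by
  obtain ⟨D, hD0, hDv⟩ := hD (d + 1) (d + 2)
    (Fin.cons (X 0) (phi d) : Fin (d + 2) → MvPolynomial (Fin (d + 1)) ℂ) (by omega)
  intro hbot
  have hmem : finSuccEquiv ℂ (d + 1) D ∈ RingHom.ker (Theta d) := by
    rw [RingHom.mem_ker]
    apply MvPolynomial.funext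
    intro y
    rw [eval_Theta, map_zero]
    have h1 := eval_eq_eval_mv_eval' (fun j : Fin (d + 1) => eval y (phi d j)) (y 0) D
    rw [← h1]
    have h2 := hDv y
    have h3 : (fun i => eval y ((Fin.cons (X 0) (phi d) :
        Fin (d + 2) → MvPolynomial (Fin (d + 1)) ℂ) i)) =
        (Fin.cons (y 0) (fun j : Fin (d + 1) => eval y (phi d j)) : Fin (d + 2) → ℂ) := by
      funext i
      refine Fin.cases ?_ (fun i => ?_) i <;> simp
    rw [h3] at h2
    exact h2
  rw [hbot, Ideal.mem_bot] at hmem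
  exact hD0 ((map_eq_zero_iff _ (finSuccEquiv ℂ (d + 1)).injective).1 hmem)

/-- a prime element in the kernel -/
lemma exists_prime_ker (hD : DimStatement) (d : ℕ) : ∃ f : (AA d)[X], Prime f ∧
    Theta d f = 0 := by
  obtain ⟨x, hx, hp⟩ := Ideal.IsPrime.exists_mem_prime_of_ne_bot
    (RingHom.ker_isPrime (Theta d)) (ker_ne_bot hD d)
  exact ⟨x, hp, hx⟩

end

end Helper73_ED
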