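import Pool.Agent.Helper73_ED.Alg2

open MvPolynomial
open scoped Polynomial

namespace Helper73_ED

noncomputable section

/-- `X - c` is not a common factor of all resultants for `c ≠ 0, 1` -/
lemma exists_RU_ne (hA4 : SpecialZeroStatement) (hA6 : MinorsStatement)
    (hA8 : OneRootStatement) (d : ℕ) (hd : 4 ≤ d) (c : ℂ) (hc0 : c ≠ 0) (hc1 : c ≠ 1) :
    ∃ U : Fin (d + 1) → ℂ, (RU d U).eval c ≠ 0 := by
  obtain ⟨⟨i, j, hij, hjd, hm⟩, ha0, had⟩ := hA6 d hd c hc0 hc1
  by_cases hd0 : (mi d d 0).eval c = 0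
  · -- all of `v_0`, `v_d` parallel; find `l` with `m_{0l} ≠ 0`
    have hl : ∃ l : ℕ, l ≤ d ∧ (mi d 0 l).eval c ≠ 0 := by
      by_contra hcon
      push Not at hcon
      apply hm
      have hi := hcon i (by omega)
      have hj := hcon j hjd
      simp only [mi, Polynomial.eval_sub, Polynomial.eval_mul] at hi hj ⊢
      rcases ha0 with h | h
      · -- a_0 ≠ 0
        have : (aP d 0).eval c * ((aP d i).eval c * (bP d j).eval c -
            (aP d j).eval c * (bP d i).eval c) = 0 := by
          linear_combination (aP d i).eval c * hj - (aP d j).eval c * hi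
        exact (mul_eq_zero.1 this).resolve_left h
      · have : (bP d 0).eval c * ((aP d i).eval c * (bP d j).eval c -
            (aP d j).eval c * (bP d i).eval c) = 0 := by
          linear_combination (bP d i).eval c * hj - (bP d j).eval c * hi
        exact (mul_eq_zero.1 this).resolve_left h
    obtain ⟨l, hld, hml⟩ := hl
    have hl0 : l ≠ 0 := by
      rintro rfl; apply hml; simp [mi]
    have hldd : l ≠ d := by
      rintro rfl; apply hml
      simp only [mi, Polynomial.eval_sub, Polynomial.eval_mul] at hd0 ⊢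
      linear_combination (-1 : ℂ) * hd0
    refine ⟨dl d 0 + dl d l + dl d d, fun hR => ?_⟩
    set U : Fin (d + 1) → ℂ := dl d 0 + dl d l + dl d d with hU
    have hU0 : U 0 ≠ 0 := by
      have e0 : ¬ (0 = l) := by omega
      have e1 : ¬ (0 = d) := by omega
      simp [hU, dl, e0, e1]
    have hUd : U (Fin.last d) ≠ 0 := by
      have e0 : ¬ (d = 0) := by omega
      have e1 : ¬ (d = l) := by omega
      simp [hU, dl, e0, e1]
    obtain ⟨s, hs, h1, h2⟩ := (hA8 d hd U c hc0 hc1 hU0 hUd).1 hR
    have hsum : ∀ p : ℕ → ℂ, ∑ k : Fin (d + 1), U k * p k * s ^ (k : ℕ) =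
        p 0 + p l * s ^ l + p d * s ^ d := by
      intro p
      have e : ∀ k : Fin (d + 1), U k * p k * s ^ (k : ℕ) =
          (if k = 0 then p k * s ^ (k : ℕ) else 0) +
          (if k = ⟨l, by omega⟩ then p k * s ^ (k : ℕ) else 0) +
          (if k = Fin.last d then p k * s ^ (k : ℕ) else 0) := by
        intro k
        simp only [hU, Pi.add_apply, dl, Fin.ext_iff, Fin.val_zero, Fin.val_last]
        split_ifs <;> ring
      rw [Finset.sum_congr rfl fun k _ => e k, Finset.sum_add_distrib, Finset.sum_add_distrib]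
      simp
    rw [F1, hsum (fun k => (aP d k).eval c)] at h1
    rw [F2, hsum (fun k => (bP d k).eval c)] at h2
    apply hml
    have hsl : s ^ l ≠ 0 := pow_ne_zero _ hs
    have : (mi d 0 l).eval c * s ^ l = 0 := by
      simp only [mi, Polynomial.eval_sub, Polynomial.eval_mul] at hd0 ⊢
      linear_combination (aP d 0).eval c * h2 - (bP d 0).eval c * h1 + s ^ d * hd0
    exact (mul_eq_zero.1 this).resolve_right hsl
  · refine ⟨dl d 0 + dl d d, ?_⟩
    rw [hA4 d hd, Polynomial.eval_pow]
    exact pow_ne_zero _ hd0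

lemma mi01_ne_zero (d : ℕ) (hd : 4 ≤ d) : mi d 0 1 ≠ 0 := by
  intro h
  have h1 := congrArg (Polynomial.eval (-1 : ℂ)) h
  simp only [mi, aP, bP, Polynomial.eval_sub, Polynomial.eval_mul, Polynomial.eval_pow,
    Polynomial.eval_add, Polynomial.eval_one, Polynomial.eval_X, Polynomial.eval_C,
    Polynomial.eval_zero] at h1
  rw [show (1 : ℂ) + -1 = 0 by norm_num, zero_pow (by omega : d - 1 ≠ 0)] at h1
  have h2 : (2 : ℂ) ^ (d - 1) ≠ 0 := pow_ne_zero _ (by norm_num)
  have h3 : (-1 : ℂ) ^ d ≠ 0 := pow_ne_zero _ (by norm_num)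
  have hd' : (d : ℂ) ≠ 0 := by
    have : d ≠ 0 := by omega
    exact_mod_cast this
  have hd2 : (d : ℂ) - 2 ≠ 0 := by
    have : (d : ℂ) ≠ 2 := by
      have : d ≠ 2 := by omega
      exact_mod_cast this
    exact sub_ne_zero.2 this
  have : (2 : ℂ) ^ (d - 1) * 2 ^ (d - 1) * (-1) ^ d * (d : ℂ) * ((d : ℂ) - 2) * 2 = 0 := by
    push_cast at h1
    linear_combination h1
  simp [h2, h3, hd', hd2] at this

/-- a prime dividing a nonzero polynomial in `X` with constant coefficients is associated to
some `X - c` -/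
lemma prime_dvd_const {d : ℕ} (g : (AA d)[X]) (hg : Prime g) (p : ℂ[X]) (hp : p ≠ 0)
    (h : g ∣ p.map (MvPolynomial.C : ℂ →+* AA d)) :
    ∃ c : ℂ, Associated g (Polynomial.X - Polynomial.C (MvPolynomial.C c)) := by
  have hsplit : p = Polynomial.C p.leadingCoeff *
      (p.roots.map fun a => Polynomial.X - Polynomial.C a).prod :=
    (IsAlgClosed.splits p).eq_prod_roots
  rw [hsplit, Polynomial.map_mul, Polynomial.map_C] at h
  rcases hg.dvd_or_dvd h with h | h
  · exfalso
    apply hg.not_isUnit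
    apply isUnit_of_dvd_unit h
    rw [Polynomial.isUnit_C]
    exact (IsUnit.mk0 _ (Polynomial.leadingCoeff_ne_zero.2 hp)).map _
  · rw [Polynomial.map_multiset_prod, Multiset.map_map] at h
    obtain ⟨q, hq, hgq⟩ := hg.exists_mem_multiset_dvd h
    rw [Multiset.mem_map] at hq
    obtain ⟨c, -, rfl⟩ := hq
    refine ⟨c, ?_⟩
    have : (Function.comp (Polynomial.map (MvPolynomial.C : ℂ →+* AA d))
        fun a => Polynomial.X - Polynomial.C a) c =
        Polynomial.X - Polynomial.C (MvPolynomial.C c) := by simp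
    rw [this] at hgq
    exact hg.irreducible.associated_of_dvd
      (Polynomial.irreducible_X_sub_C (MvPolynomial.C c : AA d)) hgq

end

end Helper73_ED
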