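import Pool.Agent.Helper73_ED.Alg3

open MvPolynomial
open scoped Polynomial

namespace Helper73_ED

noncomputable section

lemma factor_form {d : ℕ} (f0 : (AA d)[X]) (M : (AA d)[X]) :
    M ≠ 0 → (∀ g, Irreducible g → g ∣ M → g.natDegree = 0 ∨ Associated g f0) →
    ∃ (h : AA d) (m : ℕ), M = Polynomial.C h * f0 ^ m := by
  induction M using WfDvdMonoid.induction_on_irreducible with
  | zero => intro h; exact absurd rfl h
  | unit u hu =>
    intro _ _
    obtain ⟨r, -, hr⟩ := Polynomial.isUnit_iff.1 hu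
    exact ⟨r, 0, by rw [pow_zero, mul_one, hr]⟩
  | mul a i ha hi ih =>
    intro _ H
    obtain ⟨h, m, e⟩ := ih ha (fun g hg hga => H g hg (hga.mul_left i))
    rcases H i hi (dvd_mul_right i a) with h0 | h0
    · refine ⟨i.coeff 0 * h, m, ?_⟩
      rw [Polynomial.C_mul, mul_assoc, ← e]
      congr 1
      exact Polynomial.eq_C_of_natDegree_eq_zero h0
    · obtain ⟨u, hu⟩ := h0.symm
      obtain ⟨r, -, hr⟩ := Polynomial.isUnit_iff.1 u.isUnit
      refine ⟨r * h, m + 1, ?_⟩
      rw [← hu, ← hr, e, Polynomial.C_mul]; ring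

lemma exists_M (hA1 : OrdZeroStatement) (hA2 : OrdOneStatement) (d : ℕ) (hd : 4 ≤ d) :
    ∃ M : (AA d)[X], RA d = Polynomial.X ^ (2 * d - 1) * (Polynomial.X - 1) ^ (5 * d) * M := by
  have h1 : (Polynomial.X : (AA d)[X]) ^ (2 * d - 1) ∣ RA d :=
    X_pow_dvd_of_map _ _ fun U => by rw [RA_map]; exact hA1 d hd U
  have h2 : (Polynomial.X - 1 : (AA d)[X]) ^ (5 * d) ∣ RA d :=
    X_sub_one_pow_dvd_of_map _ _ fun U => by rw [RA_map]; exact hA2 d hd U
  have hc : IsCoprime ((Polynomial.X : (AA d)[X]) ^ (2 * d - 1))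
      ((Polynomial.X - 1) ^ (5 * d)) := by
    apply IsCoprime.pow
    exact ⟨1, -1, by ring⟩
  obtain ⟨M, hM⟩ := hc.mul_dvd h1 h2
  exact ⟨M, hM⟩

theorem algCount (hA1 : OrdZeroStatement) (hA2 : OrdOneStatement) (hA3 : PalinStatement)
    (hA4 : SpecialZeroStatement) (hA4b : MinorOrderStatement) (hA5 : SpecialOneStatement)
    (hA6 : MinorsStatement) (hA7 : TwoRootsStatement) (hA8 : OneRootStatement)
    (hD : DimStatement) : AlgCountStatement := by
  intro d hd
  obtain ⟨M, hM⟩ := exists_M hA1 hA2 d hd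
  have hMU : ∀ U : Fin (d + 1) → ℂ, RU d U =
      Polynomial.X ^ (2 * d - 1) * (Polynomial.X - 1) ^ (5 * d) * M.map (eval U) := by
    intro U
    rw [← RA_map, hM]
    simp
  obtain ⟨Q, hQ, hQ0, hQ1⟩ := hA4b d hd
  -- special point u0
  set u0 : Fin (d + 1) → ℂ := dl d 0 + dl d d with hu0
  have hM0 : M.map (eval u0) = Polynomial.X * Q ^ d := by
    have h1 := hMU u0
    rw [hu0, hA4 d hd, hQ, ← hu0] at h1
    have h2 : (Polynomial.X : ℂ[X]) ^ (2 * d - 1) * (Polynomial.X - 1) ^ (5 * d) ≠ 0 :=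
      mul_ne_zero (pow_ne_zero _ Polynomial.X_ne_zero)
        (pow_ne_zero _ (by
          have := Polynomial.X_sub_C_ne_zero (1 : ℂ)
          simpa using this))
    apply mul_left_cancel₀ h2
    rw [← h1]
    have h3 : (2 * d - 1) + 1 = 2 * d := by omega
    have h4 : (Polynomial.X : ℂ[X]) ^ (2 * d) =
        Polynomial.X ^ (2 * d - 1) * Polynomial.X := by
      rw [← pow_succ, h3]
    rw [mul_pow, mul_pow, ← pow_mul, ← pow_mul, h4]
    ring
  -- special point u1
  set u1 : Fin (d + 1) → ℂ := dl d 0 + dl d (d - 1) + dl d d with hu1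
  have hM1 : (M.map (eval u1)).coeff 0 ≠ 0 := by
    intro h0
    apply hA5 d hd
    rw [← hu1, hMU u1, mul_assoc]
    have : 2 * d - 1 = 0 + (2 * d - 1) := by omega
    conv_lhs => rw [this]
    simp only [Nat.zero_add]
    rw [Polynomial.coeff_X_pow_mul' , if_pos le_rfl, Nat.sub_self, Polynomial.mul_coeff_zero, h0,
      mul_zero]
  have hMne : M ≠ 0 := by
    rintro rfl
    simp at hM1
  obtain ⟨f0, hf0, hf0k⟩ := exists_prime_ker hD d
  -- irreducible divisors of M
  have hdiv : ∀ g, Irreducible g → g ∣ M → g.natDegree = 0 ∨ Associated g f0 := by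
    intro g hg hgM
    have hgp : Prime g := hg.prime
    -- g is not associated to X - c
    have hnc : ∀ c : ℂ, ¬ Associated g (Polynomial.X - Polynomial.C (MvPolynomial.C c)) := by
      intro c hc
      have hdvd : (Polynomial.X - Polynomial.C (MvPolynomial.C c : AA d)) ∣ M :=
        hc.symm.dvd.trans hgM
      have hev : ∀ U : Fin (d + 1) → ℂ, (M.map (eval U)).eval c = 0 := by
        intro U
        obtain ⟨q, hq⟩ := hdvd
        rw [hq]; simp
      by_cases h0 : c = 0
      · subst h0
        apply hM1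
        rw [Polynomial.coeff_zero_eq_eval_zero]
        exact hev u1
      · by_cases h1 : c = 1
        · subst h1
          have := hev u0
          rw [hM0] at this
          simp only [Polynomial.eval_mul, Polynomial.eval_X, Polynomial.eval_pow, one_mul] at this
          exact pow_ne_zero _ hQ1 this
        · obtain ⟨U, hU⟩ := exists_RU_ne hA4 hA6 hA8 d hd c h0 h1
          apply hU
          rw [hMU, Polynomial.eval_mul, hev U, mul_zero]
    set h : (AA d)[X] := f0 * (Polynomial.C (X 0 * X (Fin.last d)) *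
      ((Polynomial.X - Polynomial.C (MvPolynomial.C (0 : ℂ))) *
       ((Polynomial.X - Polynomial.C (MvPolynomial.C (1 : ℂ))) *
        (mi d 0 1).map (MvPolynomial.C : ℂ →+* AA d)))) with hh
    have hgh : g ∣ h := by
      apply dvd_of_zero g h hgp
      intro U r hr
      rw [hh]
      simp only [Polynomial.map_mul, Polynomial.eval_mul, Polynomial.map_C, Polynomial.eval_C,
        map_mul, eval_X, Polynomial.map_sub, Polynomial.map_X, Polynomial.eval_sub,
        Polynomial.eval_X, eval_C, map_map_C]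
      by_cases hU0 : U 0 = 0
      · rw [hU0]; ring
      by_cases hUd : U (Fin.last d) = 0
      · rw [hUd]; ring
      by_cases hr0 : r = 0
      · rw [hr0]; ring
      by_cases hr1 : r = 1
      · rw [hr1]; ring
      by_cases hm : (mi d 0 1).eval r = 0
      · rw [hm]; ring
      have hRr : (RU d U).eval r = 0 := by
        obtain ⟨q, hq⟩ := hgM
        rw [hMU, hq, Polynomial.map_mul, Polynomial.eval_mul, Polynomial.eval_mul,
          Polynomial.eval_mul, hr]; ring
      obtain ⟨s, hs, h1, h2⟩ := (hA8 d hd U r hr0 hr1 hU0 hUd).1 hRr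
      rw [ker_vanish d hd f0 hf0k U r s hs hm h1 h2]; ring
    rw [hh] at hgh
    rcases hgp.dvd_or_dvd hgh with h1 | h1
    · right
      exact hg.associated_of_dvd hf0.irreducible h1
    rcases hgp.dvd_or_dvd h1 with h2 | h2
    · left
      have hne : (Polynomial.C (X 0 * X (Fin.last d) : AA d)) ≠ 0 := by
        rw [Ne, Polynomial.C_eq_zero]
        exact mul_ne_zero (X_ne_zero _) (X_ne_zero _)
      have := Polynomial.natDegree_le_of_dvd h2 hne
      rw [Polynomial.natDegree_C] at this
      omega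
    rcases hgp.dvd_or_dvd h2 with h3 | h3
    · exact absurd (hg.associated_of_dvd (Polynomial.irreducible_X_sub_C _) h3) (hnc 0)
    rcases hgp.dvd_or_dvd h3 with h4 | h4
    · exact absurd (hg.associated_of_dvd (Polynomial.irreducible_X_sub_C _) h4) (hnc 1)
    · obtain ⟨c, hc⟩ := prime_dvd_const g hgp _ (mi01_ne_zero d hd) h4
      exact absurd hc (hnc c)
  obtain ⟨h, m, hfac⟩ := factor_form f0 M hMne hdiv
  -- m = 1
  have hQne : Q ≠ 0 := by rintro rfl; simp at hQ0
  have hfac0 : Polynomial.C (eval u0 h) * (f0.map (eval u0)) ^ m = Polynomial.X * Q ^ d := by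
    rw [← hM0, hfac]; simp
  have hm1 : m = 1 := by
    rcases Nat.lt_or_ge m 1 with hm | hm
    · exfalso
      have : m = 0 := by omega
      subst this
      rw [pow_zero, mul_one] at hfac0
      have h1 := congrArg (Polynomial.eval 0) hfac0
      simp only [Polynomial.eval_C, Polynomial.eval_mul, Polynomial.eval_X, zero_mul] at h1
      rw [h1, Polynomial.C_0] at hfac0
      exact mul_ne_zero Polynomial.X_ne_zero (pow_ne_zero _ hQne) hfac0.symm
    · by_contra hne
      have hm2 : 2 ≤ m := by omega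
      have h1 := congrArg (Polynomial.eval 0) hfac0
      simp only [Polynomial.eval_C, Polynomial.eval_mul, Polynomial.eval_X, zero_mul,
        Polynomial.eval_pow] at h1
      rcases mul_eq_zero.1 h1 with h2 | h2
      · rw [h2, Polynomial.C_0, zero_mul] at hfac0
        exact mul_ne_zero Polynomial.X_ne_zero (pow_ne_zero _ hQne) hfac0.symm
      · have h3 : (f0.map (eval u0)).eval 0 = 0 := by
          have : m ≠ 0 := by omega
          exact pow_eq_zero_iff this |>.1 h2
        have h4 : (Polynomial.X : ℂ[X]) ∣ f0.map (eval u0) := by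
          rw [Polynomial.X_dvd_iff, Polynomial.coeff_zero_eq_eval_zero]; exact h3
        have h5 : (Polynomial.X : ℂ[X]) ^ 2 ∣ Polynomial.X * Q ^ d := by
          rw [← hfac0]
          exact ((pow_dvd_pow_of_dvd h4 2).trans (pow_dvd_pow _ hm2)).mul_left _
        rw [pow_two] at h5
        have h6 := (mul_dvd_mul_iff_left Polynomial.X_ne_zero).1 h5
        rw [Polynomial.X_dvd_iff, Polynomial.coeff_zero_eq_eval_zero, Polynomial.eval_pow] at h6
        exact pow_ne_zero _ hQ0 h6
  subst hm1
  rw [pow_one] at hfac hfac0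
  -- degree of f0 positive
  have hdeg0 : f0.natDegree ≠ 0 := by
    intro h0
    rw [Polynomial.eq_C_of_natDegree_eq_zero h0, Polynomial.map_C, ← Polynomial.C_mul] at hfac0
    have h1 := congrArg (Polynomial.eval 0) hfac0
    simp only [Polynomial.eval_C, Polynomial.eval_mul, Polynomial.eval_X, zero_mul] at h1
    rw [h1, Polynomial.C_0] at hfac0
    exact mul_ne_zero Polynomial.X_ne_zero (pow_ne_zero _ hQne) hfac0.symm
  -- separability
  set K := FractionRing (AA d) with hK
  have hprim : f0.IsPrimitive := hf0.irreducible.isPrimitive hdeg0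
  have hirr : Irreducible (f0.map (algebraMap (AA d) K)) :=
    (hprim.irreducible_iff_irreducible_map_fraction_map (K := K)).1 hf0.irreducible
  have hsep : (f0.map (algebraMap (AA d) K)).Separable := hirr.separable
  set δ : AA d := Polynomial.resultant f0 (Polynomial.derivative f0) with hδ
  have hinj : Function.Injective (algebraMap (AA d) K) := IsFractionRing.injective (AA d) K
  have hδ0 : δ ≠ 0 := by
    intro h0
    have h1 := Polynomial.resultant_ne_zero (f0.map (algebraMap (AA d) K))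
      (Polynomial.derivative (f0.map (algebraMap (AA d) K))) hsep
    apply h1
    rw [Polynomial.derivative_map, Polynomial.natDegree_map_eq_of_injective hinj,
      Polynomial.natDegree_map_eq_of_injective hinj, Polynomial.resultant_map_map, ← hδ, h0,
      map_zero]
  obtain ⟨a, b, -, -, hab⟩ := Polynomial.exists_mul_add_mul_eq_C_resultant f0
    (Polynomial.derivative f0) le_rfl le_rfl (Or.inl hdeg0)
  rw [← hδ] at hab
  -- the final polynomial
  have hh0 : h ≠ 0 := by
    rintro rfl
    apply hMne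
    rw [hfac]; simp
  have hc0 : M.coeff 0 ≠ 0 := by
    intro h0
    apply hM1
    rw [Polynomial.coeff_map, h0, map_zero]
  have hc1 : M.eval 1 ≠ 0 := by
    intro h0
    have h1 : (M.map (eval u0)).eval 1 = eval u0 (M.eval 1) := by
      rw [Polynomial.eval_map, ← map_one (eval u0), Polynomial.eval₂_at_apply]
    rw [h0, map_zero, hM0] at h1
    simp only [Polynomial.eval_mul, Polynomial.eval_X, Polynomial.eval_pow, one_mul] at h1
    exact pow_ne_zero _ hQ1 h1
  refine ⟨X 0 * X (Fin.last d) * h * δ * M.coeff 0 * M.eval 1, ?_, ?_⟩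
  · exact mul_ne_zero (mul_ne_zero (mul_ne_zero (mul_ne_zero
      (mul_ne_zero (X_ne_zero _) (X_ne_zero _)) hh0) hδ0) hc0) hc1
  intro U hU
  simp only [map_mul, eval_X, mul_ne_zero_iff] at hU
  obtain ⟨⟨⟨⟨⟨hU0, hUd⟩, hUh⟩, hUδ⟩, hUc0⟩, hUc1⟩ := hU
  set MU : ℂ[X] := M.map (eval U) with hMUdef
  set fU0 : ℂ[X] := f0.map (eval U) with hfU0
  have hMUf : MU = Polynomial.C (eval U h) * fU0 := by
    rw [hMUdef, hfac]; simp [hfU0]
  have hMU0 : MU.eval 0 ≠ 0 := by
    rw [← Polynomial.coeff_zero_eq_eval_zero, hMUdef, Polynomial.coeff_map]; exact hUc0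
  have hMU1 : MU.eval 1 ≠ 0 := by
    rw [hMUdef, Polynomial.eval_map, ← map_one (eval U), Polynomial.eval₂_at_apply]; exact hUc1
  have hMUne : MU ≠ 0 := by
    intro h0; apply hMU0; rw [h0]; simp
  -- squarefree
  have hsepU : fU0.Separable := by
    have h1 := congrArg (Polynomial.map (eval U)) hab
    rw [Polynomial.map_add, Polynomial.map_mul, Polynomial.map_mul, Polynomial.map_C,
      ← Polynomial.derivative_map] at h1
    refine ⟨Polynomial.C (eval U δ)⁻¹ * a.map (eval U),
      Polynomial.C (eval U δ)⁻¹ * b.map (eval U), ?_⟩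
    rw [mul_assoc, mul_assoc, ← mul_add]
    have h2 : Polynomial.map (eval U) a * fU0 +
        Polynomial.map (eval U) b * Polynomial.derivative fU0 = Polynomial.C (eval U δ) := by
      rw [← h1]; ring
    rw [h2, ← Polynomial.C_mul, inv_mul_cancel₀ hUδ, Polynomial.C_1]
  have hMUsep : MU.Separable := by
    rw [hMUf]
    exact hsepU.unit_mul (Polynomial.isUnit_C.2 (IsUnit.mk0 _ hUh))
  -- degree
  have hXne : (Polynomial.X : ℂ[X]) ^ (2 * d - 1) ≠ 0 := pow_ne_zero _ Polynomial.X_ne_zero
  have hX1 : (Polynomial.X - 1 : ℂ[X]) ≠ 0 := by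
    have := Polynomial.X_sub_C_ne_zero (1 : ℂ)
    simpa using this
  have hX1ne : (Polynomial.X - 1 : ℂ[X]) ^ (5 * d) ≠ 0 := pow_ne_zero _ hX1
  have hRU := hMU U
  rw [← hMUdef] at hRU
  have hRUne : RU d U ≠ 0 := by
    rw [hRU]; exact mul_ne_zero (mul_ne_zero hXne hX1ne) hMUne
  have hdegR : (RU d U).natDegree = 2 * d - 1 + 5 * d + MU.natDegree := by
    rw [hRU, Polynomial.natDegree_mul (mul_ne_zero hXne hX1ne) hMUne,
      Polynomial.natDegree_mul hXne hX1ne, Polynomial.natDegree_X_pow, Polynomial.natDegree_pow]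
    have : (Polynomial.X - 1 : ℂ[X]).natDegree = 1 := by
      have := Polynomial.natDegree_X_sub_C (1 : ℂ)
      simpa using this
    rw [this, mul_one]
  have hlow : ∀ n < 2 * d - 1, (RU d U).coeff n = 0 := by
    intro n hn
    rw [hRU, mul_assoc]
    exact (Polynomial.X_pow_dvd_iff.1 (dvd_mul_right _ _)) n hn
  have hlow' : (RU d U).coeff (2 * d - 1) ≠ 0 := by
    rw [hRU, mul_assoc, Polynomial.coeff_X_pow_mul', if_pos le_rfl, Nat.sub_self,
      Polynomial.mul_coeff_zero]
    refine mul_ne_zero ?_ ?_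
    · rw [Polynomial.coeff_zero_eq_eval_zero]
      simp
    · rw [Polynomial.coeff_zero_eq_eval_zero]; exact hMU0
  obtain ⟨hdegle, hpal⟩ := hA3 d hd U
  have hd2 : 2 * d - 1 ≤ 3 * d ^ 2 := by nlinarith [Nat.sub_le (2 * d) 1]
  have hneg : ((-1 : ℂ)) ^ d ≠ 0 := pow_ne_zero _ (by norm_num)
  have hdegR2 : (RU d U).natDegree = 3 * d ^ 2 - (2 * d - 1) := by
    apply le_antisymm
    · by_contra hlt
      push Not at hlt
      have hlead : (RU d U).coeff (RU d U).natDegree ≠ 0 := by
        rw [Polynomial.coeff_natDegree]; exact Polynomial.leadingCoeff_ne_zero.2 hRUne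
      apply hlead
      rw [hpal _ hdegle, hlow _ (by omega), mul_zero]
    · apply Polynomial.le_natDegree_of_ne_zero
      rw [hpal _ (Nat.sub_le _ _)]
      have : 3 * d ^ 2 - (3 * d ^ 2 - (2 * d - 1)) = 2 * d - 1 := by omega
      rw [this]
      exact mul_ne_zero hneg hlow'
  have hdegM : MU.natDegree = 3 * d ^ 2 - 9 * d + 2 := by
    have h9 : 9 * d ≤ 3 * d ^ 2 := by nlinarith
    omega
  -- roots
  have hcard : MU.roots.toFinset.card = 3 * d ^ 2 - 9 * d + 2 := by
    rw [Multiset.toFinset_card_of_nodup (Polynomial.nodup_roots hMUsep), ← hdegM]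
    exact (IsAlgClosed.splits MU).natDegree_eq_card_roots.symm
  have hroot : ∀ r : ℂ, r ∈ (MU.roots.toFinset : Set ℂ) ↔ MU.eval r = 0 := by
    intro r
    rw [Finset.mem_coe, Multiset.mem_toFinset, Polynomial.mem_roots hMUne, Polynomial.IsRoot.def]
  have hevR : ∀ r : ℂ, r ≠ 0 → r ≠ 1 → ((RU d U).eval r = 0 ↔ MU.eval r = 0) := by
    intro r h0 h1
    rw [hRU]
    simp only [Polynomial.eval_mul, Polynomial.eval_pow, Polynomial.eval_X, Polynomial.eval_sub,
      Polynomial.eval_one, mul_eq_zero]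
    constructor
    · rintro ((h | h) | h)
      · exact absurd h (pow_ne_zero _ h0)
      · exact absurd h (pow_ne_zero _ (sub_ne_zero.2 h1))
      · exact h
    · intro h; exact Or.inr h
  have hbij : Set.BijOn Prod.fst (Sol d U) (MU.roots.toFinset : Set ℂ) := by
    refine ⟨?_, ?_, ?_⟩
    · rintro ⟨r, s⟩ ⟨hr0, hr1, hs, h1, h2⟩
      rw [hroot, ← hevR r hr0 hr1]
      exact (hA8 d hd U r hr0 hr1 hU0 hUd).2 ⟨s, hs, h1, h2⟩
    · rintro ⟨r, s⟩ ⟨hr0, hr1, hs, h1, h2⟩ ⟨r', s'⟩ ⟨-, -, hs', h1', h2'⟩ hrr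
      simp only at hrr hr0 hr1 h1 h2 h1' h2'
      subst hrr
      by_contra hne
      have hss : s ≠ s' := fun h => hne (by rw [h])
      have hdv := hA7 d (by omega) U r s s' hss h1 h2 h1' h2'
      rw [hRU] at hdv
      have hc : IsCoprime ((Polynomial.X - Polynomial.C r : ℂ[X]) ^ 2)
          (Polynomial.X ^ (2 * d - 1) * (Polynomial.X - 1) ^ (5 * d)) := by
        apply IsCoprime.mul_right
        · apply IsCoprime.pow
          have := Polynomial.isCoprime_X_sub_C_of_isUnit_sub (a := r) (b := (0 : ℂ))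
            (IsUnit.mk0 _ (by simpa using hr0))
          simpa using this
        · apply IsCoprime.pow
          have := Polynomial.isCoprime_X_sub_C_of_isUnit_sub (a := r) (b := (1 : ℂ))
            (IsUnit.mk0 _ (sub_ne_zero.2 hr1))
          simpa using this
      have hdv2 := hc.dvd_of_dvd_mul_left hdv
      have hsq := hMUsep.squarefree
      rw [pow_two] at hdv2
      exact Polynomial.not_isUnit_X_sub_C r (hsq _ hdv2)
    · intro r hr
      rw [hroot] at hr
      have hr0 : r ≠ 0 := by rintro rfl; exact hMU0 hr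
      have hr1 : r ≠ 1 := by rintro rfl; exact hMU1 hr
      obtain ⟨s, hs, h1, h2⟩ := (hA8 d hd U r hr0 hr1 hU0 hUd).1 ((hevR r hr0 hr1).2 hr)
      exact ⟨(r, s), ⟨hr0, hr1, hs, h1, h2⟩, rfl⟩
  have hfin : (Sol d U).Finite := hbij.finite_iff_finite.2 (Finset.finite_toSet _)
  refine ⟨hfin, ?_⟩
  rw [← hbij.injOn.ncard_image, hbij.image_eq, Set.ncard_coe_finset, hcard]

end

end Helper73_ED
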