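import Mathlib

/-!
# Euclidean distance degree of the secant variety of the rational normal curve: definitions

Everything used in the final statement of `MP_625b79_ag` is in the first section.
-/

open MvPolynomial
open scoped Polynomial

namespace Helper73_ED

noncomputable section

/-! ## General definitions -/

variable {n : ℕ}

/-- `F` vanishes on the set `S`. -/
def Vanishes (S : Set (Fin n → ℂ)) (F : MvPolynomial (Fin n) ℂ) : Prop :=
  ∀ y ∈ S, eval y F = 0

/-- Zariski closure of `S` in affine space `ℂⁿ`. -/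
def zclosure (S : Set (Fin n → ℂ)) : Set (Fin n → ℂ) :=
  {x | ∀ F : MvPolynomial (Fin n) ℂ, Vanishes S F → eval x F = 0}

/-- Zariski tangent space at `x` of the affine variety `X`: the common kernel of the
differentials at `x` of all polynomials vanishing on `X`. -/
def tangentSpace (X : Set (Fin n → ℂ)) (x : Fin n → ℂ) : Submodule ℂ (Fin n → ℂ) where
  carrier := {v | ∀ F : MvPolynomial (Fin n) ℂ, Vanishes X F →
    ∑ i, eval x (pderiv i F) * v i = 0}
  zero_mem' := by intro F _; simp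
  add_mem' := by
    intro v w hv hw F hF
    have h1 := hv F hF
    have h2 := hw F hF
    simp only [Pi.add_apply, mul_add, Finset.sum_add_distrib, h1, h2, add_zero]
  smul_mem' := by
    intro c v hv F hF
    have h1 := hv F hF
    have : ∑ i, eval x (pderiv i F) * (c • v) i = c * ∑ i, eval x (pderiv i F) * v i := by
      rw [Finset.mul_sum]; exact Finset.sum_congr rfl fun i _ => by
        simp only [Pi.smul_apply, smul_eq_mul]; ring
    rw [this, h1, mul_zero]

/-- Smooth points of the irreducible variety `X`: points at which the Zariski tangent space has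
the smallest possible dimension (which is the dimension of `X`). -/
def IsSmoothPoint (X : Set (Fin n → ℂ)) (x : Fin n → ℂ) : Prop :=
  x ∈ X ∧ ∀ y ∈ X,
    Module.finrank ℂ (tangentSpace X x) ≤ Module.finrank ℂ (tangentSpace X y)

/-- Critical points on the smooth locus of `X` of the function `x ↦ b (x - u) (x - u)`, where
`b` is a symmetric bilinear form: smooth points `x` such that `x - u` is `b`-orthogonal to
the tangent space at `x`. -/
def criticalPoints (b : (Fin n → ℂ) → (Fin n → ℂ) → ℂ) (X : Set (Fin n → ℂ))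
    (u : Fin n → ℂ) : Set (Fin n → ℂ) :=
  {x | IsSmoothPoint X x ∧ ∀ v ∈ tangentSpace X x, b (x - u) v = 0}

/-- `N` is the Euclidean distance degree of `X`: for all `u` outside the zero set of some
nonzero polynomial, the number of critical points is `N`. -/
def IsEDDegree (b : (Fin n → ℂ) → (Fin n → ℂ) → ℂ) (X : Set (Fin n → ℂ)) (N : ℕ) : Prop :=
  ∃ D : MvPolynomial (Fin n) ℂ, D ≠ 0 ∧ ∀ u : Fin n → ℂ, eval u D ≠ 0 →
    (criticalPoints b X u).Finite ∧ (criticalPoints b X u).ncard = N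

/-! ## Binary forms -/

/-- The binary form `(a x + b y)^d`, as coefficient vector `c` with `f = ∑ c_i x^(d-i) y^i`. -/
def powerForm (d : ℕ) (a b : ℂ) : Fin (d + 1) → ℂ :=
  fun i => (d.choose i : ℂ) * a ^ (d - (i : ℕ)) * b ^ (i : ℕ)

/-- Frobenius bilinear form on binary forms of degree `d`: `∑ f_i g_i / binom(d,i)`. -/
def frobenius (d : ℕ) (f g : Fin (d + 1) → ℂ) : ℂ :=
  ∑ i : Fin (d + 1), f i * g i / (d.choose i : ℂ)

/-- Sums of two `d`-th powers of linear forms. -/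
def sumTwoPowers (d : ℕ) : Set (Fin (d + 1) → ℂ) :=
  {f | ∃ a b a' b' : ℂ, f = powerForm d a b + powerForm d a' b'}

/-- The affine cone over the secant variety `σ₂(v_d(ℙ¹))`. -/
def secantCone (d : ℕ) : Set (Fin (d + 1) → ℂ) := zclosure (sumTwoPowers d)

/-- The number `(3 d² - 9 d + 2)/2`. -/
def edNumber (d : ℕ) : ℕ := (3 * d ^ 2 - 9 * d + 2) / 2

/-! ## Model in isotropic coordinates -/

/-- moment vector `(z^d, z^(d-1) w, ..., w^d)` -/
def pw (d : ℕ) (z w : ℂ) : Fin (d + 1) → ℂ := fun j => z ^ (d - (j : ℕ)) * w ^ (j : ℕ)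

/-- the bilinear form of the model -/
def BY (d : ℕ) (y y' : Fin (d + 1) → ℂ) : ℂ :=
  ∑ j : Fin (d + 1), (d.choose j : ℂ) * y j * y' (Fin.rev j)

/-- sums of two moment vectors -/
def secY (d : ℕ) : Set (Fin (d + 1) → ℂ) :=
  {y | ∃ z w z' w' : ℂ, y = pw d z w + pw d z' w'}

/-- Taylor coefficient vectors of the moment curve: `(s+ε)^(d-j) = ∑ ε^k (mom d k s j)`. -/
def mom (d k : ℕ) (s : ℂ) : Fin (d + 1) → ℂ :=
  fun j => ((d - (j : ℕ)).choose k : ℂ) * s ^ (d - (j : ℕ) - k)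

/-- unit vectors -/
def dl (d i : ℕ) : Fin (d + 1) → ℂ := fun j => if (j : ℕ) = i then 1 else 0

/-! ## The algebraic system -/

/-- `a_j(r) = (1+r)^(d-1) (d - j(1+r)) - 2^(d-1) (d-2j) r^j` -/
def aP (d j : ℕ) : ℂ[X] :=
  (1 + Polynomial.X) ^ (d - 1) * (Polynomial.C (d : ℂ) - Polynomial.C (j : ℂ) * (1 + Polynomial.X))
    - Polynomial.C (2 ^ (d - 1) * ((d : ℂ) - 2 * (j : ℂ))) * Polynomial.X ^ j

/-- `b_j(r) = r^j (1+r)^(d-1) (d r - j(1+r)) - 2^(d-1) (d-2j) r^d` -/
def bP (d j : ℕ) : ℂ[X] :=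
  Polynomial.X ^ j * (1 + Polynomial.X) ^ (d - 1) *
      (Polynomial.C (d : ℂ) * Polynomial.X - Polynomial.C (j : ℂ) * (1 + Polynomial.X))
    - Polynomial.C (2 ^ (d - 1) * ((d : ℂ) - 2 * (j : ℂ))) * Polynomial.X ^ d

/-- `F₁ = ∑ U_j a_j(r) s^j` -/
def F1 (d : ℕ) (U : Fin (d + 1) → ℂ) (r s : ℂ) : ℂ :=
  ∑ j : Fin (d + 1), U j * (aP d j).eval r * s ^ (j : ℕ)

/-- `F₂ = ∑ U_j b_j(r) s^j` -/
def F2 (d : ℕ) (U : Fin (d + 1) → ℂ) (r s : ℂ) : ℂ :=
  ∑ j : Fin (d + 1), U j * (bP d j).eval r * s ^ (j : ℕ)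

/-- `F₁` as a polynomial in `s` over `ℂ[r]` -/
def fU (d : ℕ) (U : Fin (d + 1) → ℂ) : ℂ[X][X] :=
  ∑ j : Fin (d + 1), Polynomial.C (Polynomial.C (U j) * aP d j) * Polynomial.X ^ (j : ℕ)

/-- `F₂` as a polynomial in `s` over `ℂ[r]` -/
def gU (d : ℕ) (U : Fin (d + 1) → ℂ) : ℂ[X][X] :=
  ∑ j : Fin (d + 1), Polynomial.C (Polynomial.C (U j) * bP d j) * Polynomial.X ^ (j : ℕ)

/-- the resultant in `s` -/
def RU (d : ℕ) (U : Fin (d + 1) → ℂ) : ℂ[X] := Polynomial.resultant (fU d U) (gU d U) d d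

/-- the minors `a_i b_j - a_j b_i` -/
def mi (d i j : ℕ) : ℂ[X] := aP d i * bP d j - aP d j * bP d i

/-- solutions of the system -/
def Sol (d : ℕ) (U : Fin (d + 1) → ℂ) : Set (ℂ × ℂ) :=
  {p | p.1 ≠ 0 ∧ p.1 ≠ 1 ∧ p.2 ≠ 0 ∧ F1 d U p.1 p.2 = 0 ∧ F2 d U p.1 p.2 = 0}

end

end Helper73_ED
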