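import Pool.Agent.Helper73_ED.Statements

open MvPolynomial
open scoped Polynomial

namespace Helper73_ED

noncomputable section

/-- `BY d y` as a linear map -/
def BYl (d : ℕ) (y : Fin (d + 1) → ℂ) : (Fin (d + 1) → ℂ) →ₗ[ℂ] ℂ where
  toFun := BY d y
  map_add' := by
    intro v w
    simp only [BY, Pi.add_apply, mul_add, Finset.sum_add_distrib]
  map_smul' := by
    intro c v
    simp only [BY, Pi.smul_apply, smul_eq_mul, RingHom.id_apply, Finset.mul_sum]
    exact Finset.sum_congr rfl fun j _ => by ring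

lemma BY_dl0 (d : ℕ) (y : Fin (d + 1) → ℂ) : BY d y (dl d 0) = y (Fin.last d) := by
  rw [BY, Finset.sum_eq_single (Fin.last d)]
  · simp [dl]
  · intro b _ hb
    have : ((Fin.rev b : Fin (d + 1)) : ℕ) ≠ 0 := by
      intro h
      apply hb
      have := b.isLt
      rw [Fin.val_rev] at h
      exact Fin.ext (by rw [Fin.val_last]; omega)
    simp only [dl, if_neg this, mul_zero]
  · intro h; exact absurd (Finset.mem_univ _) h

lemma Cond.symm {d : ℕ} {u : Fin (d + 1) → ℂ} {s t α β : ℂ} (h : Cond d u s t α β) :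
    Cond d u t s β α := by
  obtain ⟨h1, h2, h3, h4⟩ := h
  have e : β • mom d 0 t + α • mom d 0 s - u = α • mom d 0 s + β • mom d 0 t - u :=
    congrArg (fun v => v - u) (add_comm (β • mom d 0 t) (α • mom d 0 s))
  refine ⟨?_, ?_, ?_, ?_⟩ <;> rw [e] <;> assumption

lemma finrank_ge (hG1 : TangentTwoStatement) (hG2 : TangentInfStatement)
    (hG3 : TangentDoubleStatement) (hG4 : TangentDoubleInfStatement)
    (hG5 : TangentOneStatement) (hG6 : ClassificationStatement) (d : ℕ) (hd : 4 ≤ d)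
    (y : Fin (d + 1) → ℂ) (hy : y ∈ zclosure (secY d)) :
    4 ≤ Module.finrank ℂ (tangentSpace (zclosure (secY d)) y) := by
  rcases hG6 d hd y hy with ⟨s, t, α, β, hst, hα, hβ, rfl⟩ | ⟨s, α, β, hα, hβ, rfl⟩ |
    ⟨s, α, β, hβ, rfl⟩ | ⟨α, β, hβ, rfl⟩ | ⟨α, z, w, rfl⟩
  · rw [(hG1 d hd s t α β hst hα hβ).2.2]
  · exact (hG2 d hd s α β hα hβ).2.2.2.2
  · exact (hG3 d hd s α β hβ).2
  · exact (hG4 d hd α β hβ).2
  · rw [hG5 d (by omega) α z w, finrank_top, Module.finrank_pi, Fintype.card_fin]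
    omega

lemma crit_iff (hG1 : TangentTwoStatement) (hG2 : TangentInfStatement)
    (hG3 : TangentDoubleStatement) (hG4 : TangentDoubleInfStatement)
    (hG5 : TangentOneStatement) (hG6 : ClassificationStatement) (d : ℕ) (hd : 4 ≤ d)
    (u : Fin (d + 1) → ℂ) (hu : u (Fin.last d) ≠ 0)
    (hB1 : ∀ s α β : ℂ,
      ¬ ∀ k < 4, BY d (α • mom d 0 s + β • mom d 1 s - u) (mom d k s) = 0)
    (hB2 : ∀ s α β : ℂ, ¬ (BY d (α • mom d 0 s + β • dl d 0 - u) (mom d 0 s) = 0 ∧
        BY d (α • mom d 0 s + β • dl d 0 - u) (mom d 1 s) = 0 ∧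
        BY d (α • mom d 0 s + β • dl d 0 - u) (dl d 0) = 0 ∧
        BY d (α • mom d 0 s + β • dl d 0 - u) (dl d 1) = 0))
    (x : Fin (d + 1) → ℂ) :
    x ∈ criticalPoints (BY d) (zclosure (secY d)) u ↔
      ∃ s t α β : ℂ, s ≠ t ∧ α ≠ 0 ∧ β ≠ 0 ∧ x = α • mom d 0 s + β • mom d 0 t ∧
        Cond d u s t α β := by
  constructor
  · rintro ⟨⟨hx, hsm⟩, hcr⟩
    rcases hG6 d hd x hx with ⟨s, t, α, β, hst, hα, hβ, rfl⟩ | ⟨s, α, β, hα, hβ, rfl⟩ |
      ⟨s, α, β, hβ, rfl⟩ | ⟨α, β, hβ, rfl⟩ | ⟨α, z, w, rfl⟩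
    · refine ⟨s, t, α, β, hst, hα, hβ, rfl, ?_⟩
      have hT := (hG1 d hd s t α β hst hα hβ).2.1
      refine ⟨hcr _ ?_, hcr _ ?_, hcr _ ?_, hcr _ ?_⟩ <;>
      · rw [hT]; apply Submodule.subset_span; simp
    · exfalso
      obtain ⟨h1, h2, h3, h4, -⟩ := hG2 d hd s α β hα hβ
      exact hB2 s α β ⟨hcr _ h1, hcr _ h2, hcr _ h3, hcr _ h4⟩
    · exfalso
      exact hB1 s α β fun k hk => hcr _ ((hG3 d hd s α β hβ).1 k hk)
    · exfalso
      have h1 := hcr _ (hG4 d hd α β hβ).1
      rw [BY_dl0] at h1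
      apply hu
      have e0 : ¬ (d = 0) := by omega
      have e1 : ¬ (d = 1) := by omega
      simpa [dl, e0, e1] using h1
    · exfalso
      have h1 := hG1 d hd 0 1 1 1 (by norm_num) one_ne_zero one_ne_zero
      have h2 := hsm _ h1.1
      rw [h1.2.2, hG5 d (by omega) α z w, finrank_top, Module.finrank_pi,
        Fintype.card_fin] at h2
      omega
  · rintro ⟨s, t, α, β, hst, hα, hβ, rfl, h1, h2, h3, h4⟩
    obtain ⟨hX, hT, hf⟩ := hG1 d hd s t α β hst hα hβ
    refine ⟨⟨hX, fun y hy => ?_⟩, fun v hv => ?_⟩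
    · rw [hf]; exact finrank_ge hG1 hG2 hG3 hG4 hG5 hG6 d hd y hy
    · rw [hT] at hv
      have hle : Submodule.span ℂ {mom d 0 s, mom d 1 s, mom d 0 t, mom d 1 t} ≤
          LinearMap.ker (BYl d (α • mom d 0 s + β • mom d 0 t - u)) := by
        rw [Submodule.span_le]
        rintro w (rfl | rfl | rfl | rfl)
        · exact h1
        · exact h2
        · exact h3
        · exact h4
      exact hle hv

theorem geomCount (hG1 : TangentTwoStatement) (hG2 : TangentInfStatement)
    (hG3 : TangentDoubleStatement) (hG4 : TangentDoubleInfStatement)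
    (hG5 : TangentOneStatement) (hG6 : ClassificationStatement) (hU1 : UniqueStatement)
    (hC1 : CondIffStatement) (hB : BadStatement) (hA : AlgCountStatement)
    (d : ℕ) (hd : 4 ≤ d) : IsEDDegree (BY d) (zclosure (secY d)) (edNumber d) := by
  obtain ⟨DA, hDA0, hDA⟩ := hA d hd
  obtain ⟨DB, hDB0, hDB⟩ := hB d hd
  -- pull back DA
  set DA' : MvPolynomial (Fin (d + 1)) ℂ :=
    bind₁ (fun j : Fin (d + 1) => C (d.choose j : ℂ) * X j) DA with hDA'
  have hev : ∀ u : Fin (d + 1) → ℂ, eval u DA' = eval (toU d u) DA := by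
    intro u
    have h1 : (eval u).comp ((bind₁ (fun j : Fin (d + 1) => C (d.choose j : ℂ) * X j) :
        MvPolynomial (Fin (d + 1)) ℂ →ₐ[ℂ] MvPolynomial (Fin (d + 1)) ℂ) :
        MvPolynomial (Fin (d + 1)) ℂ →+* MvPolynomial (Fin (d + 1)) ℂ) = eval (toU d u) := by
      apply MvPolynomial.ringHom_ext
      · intro r; simp
      · intro i; simp [toU]
    exact congrArg (fun f => f DA) h1
  have hchoose : ∀ j : Fin (d + 1), (d.choose j : ℂ) ≠ 0 := by
    intro j
    have := Nat.choose_pos (Nat.lt_succ_iff.1 j.isLt)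
    exact_mod_cast this.ne'
  have hDA'0 : DA' ≠ 0 := by
    intro h0
    apply hDA0
    apply MvPolynomial.funext
    intro U
    have h1 := hev (fun j => U j / (d.choose j : ℂ))
    rw [h0, map_zero] at h1
    have h2 : toU d (fun j => U j / (d.choose j : ℂ)) = U := by
      funext j
      simp only [toU]
      field_simp [hchoose j]
    rw [h2] at h1
    rw [map_zero]; exact h1.symm
  refine ⟨DA' * DB, mul_ne_zero hDA'0 hDB0, fun u hu => ?_⟩
  rw [map_mul] at hu
  have huA : eval (toU d u) DA ≠ 0 := by rw [← hev]; exact left_ne_zero_of_mul hu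
  have huB : eval u DB ≠ 0 := right_ne_zero_of_mul hu
  obtain ⟨hfin, hcard⟩ := hDA _ huA
  obtain ⟨⟨hu0, hud⟩, hB1, hB2, hB3, hB4, hB5⟩ := hDB u huB
  have hcrit := crit_iff hG1 hG2 hG3 hG4 hG5 hG6 d hd u hud hB1 hB2
  -- choice of alpha, beta
  have hex : ∀ p : ℂ × ℂ, p ∈ Sol d (toU d u) → ∃ α β : ℂ, Cond d u p.2 (p.1 * p.2) α β := by
    rintro ⟨r, s⟩ ⟨hr0, hr1, hs, h1, h2⟩
    exact (hC1 d hd u r s hr0 hr1 hs).1.2 ⟨h1, h2⟩
  classical
  let al : ℂ × ℂ → ℂ := fun p => if h : p ∈ Sol d (toU d u) then (hex p h).choose else 0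
  let be : ℂ × ℂ → ℂ := fun p =>
    if h : p ∈ Sol d (toU d u) then (hex p h).choose_spec.choose else 0
  have hcond : ∀ p ∈ Sol d (toU d u), Cond d u p.2 (p.1 * p.2) (al p) (be p) := by
    intro p hp
    simp only [al, be, dif_pos hp]
    exact (hex p hp).choose_spec.choose_spec
  let g : ℂ × ℂ → (Fin (d + 1) → ℂ) := fun p =>
    al p • mom d 0 p.2 + be p • mom d 0 (p.1 * p.2)
  have hne : ∀ p ∈ Sol d (toU d u), p.2 ≠ p.1 * p.2 := by
    rintro ⟨r, s⟩ ⟨hr0, hr1, hs, -, -⟩ h
    apply hr1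
    simp only at h hs ⊢
    have : (r - 1) * s = 0 := by linear_combination -h
    rcases mul_eq_zero.1 this with h' | h'
    · exact sub_eq_zero.1 h'
    · exact absurd h' hs
  have hal : ∀ p ∈ Sol d (toU d u), al p ≠ 0 := by
    intro p hp h0
    have := hcond p hp
    rw [h0] at this
    exact hB5 _ _ _ (hne p hp) this
  have hbe : ∀ p ∈ Sol d (toU d u), be p ≠ 0 := by
    intro p hp h0
    have := hcond p hp
    rw [h0] at this
    exact hB5 _ _ _ (hne p hp).symm this.symm
  -- image of g is the set of critical points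
  have himg : criticalPoints (BY d) (zclosure (secY d)) u = g '' (Sol d (toU d u)) := by
    ext x
    rw [hcrit]
    constructor
    · rintro ⟨s, t, α, β, hst, hα, hβ, rfl, hc⟩
      have hs : s ≠ 0 := by
        rintro rfl
        exact hB3 t α β (Ne.symm hst) hc
      have ht : t ≠ 0 := by
        rintro rfl
        exact hB3 s β α hst hc.symm
      have hst' : t ≠ -s := by
        rintro rfl
        exact hB4 s α β hs hc
      have hrs : t / s * s = t := div_mul_cancel₀ t hs
      have hr0 : t / s ≠ 0 := div_ne_zero ht hs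
      have hr1 : t / s ≠ 1 := by
        intro h
        rw [div_eq_one_iff_eq hs] at h
        exact hst h.symm
      have hC := hC1 d hd u (t / s) s hr0 hr1 hs
      rw [hrs] at hC
      have hF := hC.1.1 ⟨α, β, hc⟩
      have hmem : ((t / s, s) : ℂ × ℂ) ∈ Sol d (toU d u) := ⟨hr0, hr1, hs, hF.1, hF.2⟩
      refine ⟨(t / s, s), hmem, ?_⟩
      have hc' := hcond _ hmem
      simp only at hc'
      rw [hrs] at hc'
      obtain ⟨e1, e2⟩ := hC.2 _ _ _ _ hc' hc
      simp only [g, hrs, e1, e2]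
    · rintro ⟨p, hp, rfl⟩
      exact ⟨p.2, p.1 * p.2, al p, be p, hne p hp, hal p hp, hbe p hp, rfl, hcond p hp⟩
  -- fibres
  set S : Finset (ℂ × ℂ) := hfin.toFinset with hS
  have hmemS : ∀ p, p ∈ S ↔ p ∈ Sol d (toU d u) := fun p => hfin.mem_toFinset
  have hfib : ∀ x ∈ S.image g, (S.filter (fun a => g a = x)).card = 2 := by
    intro x hx
    obtain ⟨p, hpS, rfl⟩ := Finset.mem_image.1 hx
    have hp := (hmemS p).1 hpS
    obtain ⟨hr0, hr1, hs, hF1, hF2⟩ := id hp
    set q : ℂ × ℂ := (p.1⁻¹, p.1 * p.2) with hq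
    have hq1 : q.1 * q.2 = p.2 := by
      simp only [hq]; field_simp
    have hqr0 : q.1 ≠ 0 := inv_ne_zero hr0
    have hqr1 : q.1 ≠ 1 := by
      simp only [hq]; intro h; exact hr1 (inv_eq_one.1 h)
    have hqs : q.2 ≠ 0 := mul_ne_zero hr0 hs
    have hCq := hC1 d hd u q.1 q.2 hqr0 hqr1 hqs
    rw [hq1] at hCq
    have hqc : Cond d u q.2 p.2 (be p) (al p) := (hcond p hp).symm
    have hFq := hCq.1.1 ⟨_, _, hqc⟩
    have hqmem : q ∈ Sol d (toU d u) := ⟨hqr0, hqr1, hqs, hFq.1, hFq.2⟩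
    have hgq : g q = g p := by
      have hc' := hcond q hqmem
      rw [hq1] at hc'
      obtain ⟨e1, e2⟩ := hCq.2 _ _ _ _ hc' hqc
      simp only [g, hq1, e1, e2]
      exact add_comm (be p • mom d 0 q.2) (al p • mom d 0 p.2)
    have hpq : p ≠ q := by
      intro h
      have := congrArg Prod.snd h
      exact hne p hp this
    have : S.filter (fun a => g a = g p) = {p, q} := by
      ext a
      rw [Finset.mem_filter, Finset.mem_insert, Finset.mem_singleton, hmemS]
      constructor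
      · rintro ⟨ha, hga⟩
        rcases hU1 d (by omega) _ _ _ _ _ _ _ _ (hne a ha) (hne p hp) (hal a ha) (hbe a ha)
          (hal p hp) (hbe p hp) hga with ⟨e1, e2, -, -⟩ | ⟨e1, e2, -, -⟩
        · left
          have : a.1 = p.1 := by
            rw [e1] at e2
            exact mul_right_cancel₀ hs e2
          exact Prod.ext this e1
        · right
          -- a.2 = p.1 p.2, a.1 a.2 = p.2
          have ha1 : a.1 = p.1⁻¹ := by
            rw [e1] at e2
            have h1 : (a.1 * p.1) * p.2 = 1 * p.2 := by rw [one_mul]; linear_combination e2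
            have h2 := mul_right_cancel₀ hs h1
            exact eq_inv_of_mul_eq_one_left h2
          exact Prod.ext ha1 e1
      · rintro (rfl | rfl)
        · exact ⟨hp, rfl⟩
        · exact ⟨hqmem, hgq⟩
    rw [this, Finset.card_pair hpq]
  have hcardS : S.card = 2 * (S.image g).card := by
    rw [Finset.card_eq_sum_card_image g S, Finset.sum_congr rfl hfib, Finset.sum_const,
      smul_eq_mul, mul_comm]
  have hcrit_eq : criticalPoints (BY d) (zclosure (secY d)) u = ((S.image g : Finset _) :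
      Set (Fin (d + 1) → ℂ)) := by
    rw [himg, Finset.coe_image, hS, hfin.coe_toFinset]
  constructor
  · rw [hcrit_eq]; exact Finset.finite_toSet _
  · rw [hcrit_eq, Set.ncard_coe_finset, edNumber]
    have h1 : (Sol d (toU d u)).ncard = S.card := Set.ncard_eq_toFinset_card _ hfin
    rw [h1] at hcard
    omega

theorem main (hT1 : TransportStatement) (hT2 : IsometryStatement)
    (hG1 : TangentTwoStatement) (hG2 : TangentInfStatement)
    (hG3 : TangentDoubleStatement) (hG4 : TangentDoubleInfStatement)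
    (hG5 : TangentOneStatement) (hG6 : ClassificationStatement) (hU1 : UniqueStatement)
    (hC1 : CondIffStatement) (hB : BadStatement) (hA : AlgCountStatement) : MainStatement := by
  intro d hd
  obtain ⟨L, hL, hLb⟩ := hT2 d
  refine hT1 (d + 1) L (sumTwoPowers d) (secY d) (frobenius d) (BY d) (2 ^ d) (edNumber d)
    ?_ (pow_ne_zero _ (by norm_num)) hLb
    (geomCount hG1 hG2 hG3 hG4 hG5 hG6 hU1 hC1 hB hA d hd)
  intro x
  constructor
  · rintro ⟨a, b, a', b', rfl⟩
    exact ⟨_, _, _, _, by rw [map_add, hL, hL]⟩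
  · rintro ⟨z, w, z', w', h⟩
    have key : ∀ z w : ℂ, L (powerForm d ((z + w) / 2) ((z - w) / (2 * Complex.I))) =
        pw d z w := by
      intro z w
      rw [hL]
      have hI : Complex.I ≠ 0 := Complex.I_ne_zero
      congr 1
      · field_simp; ring
      · field_simp; ring
    refine ⟨(z + w) / 2, (z - w) / (2 * Complex.I), (z' + w') / 2,
      (z' - w') / (2 * Complex.I), ?_⟩
    apply L.injective
    rw [h, map_add, key, key]

end

end Helper73_ED
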