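import Pool.Agent.Helper73_ED.SpecOne

open scoped Polynomial
open Polynomial

namespace Helper73_ED

noncomputable section

lemma expand1 (q : ℕ) : ∃ W : ℂ[X], (1 + X : ℂ[X]) ^ q = 1 + C (q : ℂ) * X +
    C ((q : ℂ) * (q - 1) / 2) * X ^ 2 + C ((q : ℂ) * (q - 1) * (q - 2) / 6) * X ^ 3 +
    C ((q : ℂ) * (q - 1) * (q - 2) * (q - 3) / 24) * X ^ 4 + X ^ 5 * W := by
  induction q with
  | zero => exact ⟨0, by simp⟩
  | succ q ih =>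
    obtain ⟨W, hW⟩ := ih
    refine ⟨(1 + X) * W + C ((q : ℂ) * (q - 1) * (q - 2) * (q - 3) / 24), ?_⟩
    rw [pow_succ, hW]
    refine Polynomial.funext fun y => ?_
    simp only [eval_add, eval_mul, eval_one, eval_C, eval_X, eval_pow, Nat.cast_add, Nat.cast_one]
    ring

lemma expand2 (q : ℕ) : ∃ W : ℂ[X], (1 + C (1 / 2) * X : ℂ[X]) ^ q = 1 + C ((q : ℂ) / 2) * X +
    C ((q : ℂ) * (q - 1) / 8) * X ^ 2 + C ((q : ℂ) * (q - 1) * (q - 2) / 48) * X ^ 3 +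
    C ((q : ℂ) * (q - 1) * (q - 2) * (q - 3) / 384) * X ^ 4 + X ^ 5 * W := by
  obtain ⟨W, hW⟩ := expand1 q
  refine ⟨C (1 / 32) * W.comp (C (1 / 2) * X), ?_⟩
  have h := congrArg (fun p : ℂ[X] => p.comp (C (1 / 2) * X)) hW
  simp only [pow_comp, add_comp, one_comp, X_comp, mul_comp, C_comp] at h
  rw [h]
  refine Polynomial.funext fun y => ?_
  simp only [eval_add, eval_mul, eval_one, eval_C, eval_X, eval_pow]
  ring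

lemma low_terms (n : ℂ) : ∃ Zp : ℂ[X],
    (C ((n + 1) / 2 - (n + 1)) + C ((n + 1) * n / 8 - (n + 1) * n / 2) * X +
      C ((n + 1) * n * (n - 1) / 48 - (n + 1) * n * (n - 1) / 6) * X ^ 2 +
      C ((n + 1) * n * (n - 1) * (n - 2) / 384 - (n + 1) * n * (n - 1) * (n - 2) / 24) * X ^ 3) ^ 2 -
    (1 + C n * X + C (n * (n - 1) / 2) * X ^ 2 + C (n * (n - 1) * (n - 2) / 6) * X ^ 3) *
    (C ((n + 1) / 2) + C ((n + 1) * n / 8) * X +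
      C ((n + 1) * n * (n - 1) / 48) * X ^ 2 +
      C ((n + 1) * n * (n - 1) * (n - 2) / 384) * X ^ 3) ^ 2 =
    X ^ 3 * (C (-((n + 1) ^ 2 * n * (n + 2)) / 192) + X * Zp) := by
  obtain ⟨α1, hα1⟩ : ∃ a, a = (n + 1) / 2 - (n + 1) := ⟨_, rfl⟩
  obtain ⟨α2, hα2⟩ : ∃ a, a = (n + 1) * n / 8 - (n + 1) * n / 2 := ⟨_, rfl⟩
  obtain ⟨α3, hα3⟩ : ∃ a, a = (n + 1) * n * (n - 1) / 48 - (n + 1) * n * (n - 1) / 6 := ⟨_, rfl⟩
  obtain ⟨α4, hα4⟩ : ∃ a, a = (n + 1) * n * (n - 1) * (n - 2) / 384 -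
    (n + 1) * n * (n - 1) * (n - 2) / 24 := ⟨_, rfl⟩
  obtain ⟨β1, hβ1⟩ : ∃ a, a = (n + 1) / 2 := ⟨_, rfl⟩
  obtain ⟨β2, hβ2⟩ : ∃ a, a = (n + 1) * n / 8 := ⟨_, rfl⟩
  obtain ⟨β3, hβ3⟩ : ∃ a, a = (n + 1) * n * (n - 1) / 48 := ⟨_, rfl⟩
  obtain ⟨β4, hβ4⟩ : ∃ a, a = (n + 1) * n * (n - 1) * (n - 2) / 384 := ⟨_, rfl⟩
  obtain ⟨e1, he1⟩ : ∃ a, a = n := ⟨_, rfl⟩
  obtain ⟨e2, he2⟩ : ∃ a, a = n * (n - 1) / 2 := ⟨_, rfl⟩
  obtain ⟨e3, he3⟩ : ∃ a, a = n * (n - 1) * (n - 2) / 6 := ⟨_, rfl⟩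
  refine ⟨C ((α2 * α4 + α3 * α3 + α4 * α2) - (β2 * β4 + β3 * β3 + β4 * β2 + e1 * β1 * β4 + e1 * β2 * β3 + e1 * β3 * β2 + e1 * β4 * β1 + e2 * β1 * β3 + e2 * β2 * β2 + e2 * β3 * β1 + e3 * β1 * β2 + e3 * β2 * β1)) * X ^ 0 +
      C ((α3 * α4 + α4 * α3) - (β3 * β4 + β4 * β3 + e1 * β2 * β4 + e1 * β3 * β3 + e1 * β4 * β2 + e2 * β1 * β4 + e2 * β2 * β3 + e2 * β3 * β2 + e2 * β4 * β1 + e3 * β1 * β3 + e3 * β2 * β2 + e3 * β3 * β1)) * X ^ 1 +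
      C ((α4 * α4) - (β4 * β4 + e1 * β3 * β4 + e1 * β4 * β3 + e2 * β2 * β4 + e2 * β3 * β3 + e2 * β4 * β2 + e3 * β1 * β4 + e3 * β2 * β3 + e3 * β3 * β2 + e3 * β4 * β1)) * X ^ 2 +
      C ((0) - (e1 * β4 * β4 + e2 * β3 * β4 + e2 * β4 * β3 + e3 * β2 * β4 + e3 * β3 * β3 + e3 * β4 * β2)) * X ^ 3 +
      C ((0) - (e2 * β4 * β4 + e3 * β3 * β4 + e3 * β4 * β3)) * X ^ 4 +
      C ((0) - (e3 * β4 * β4)) * X ^ 5, ?_⟩
  rw [← hα1, ← hα2, ← hα3, ← hα4, ← hβ1, ← hβ2, ← hβ3, ← hβ4, ← he2, ← he3]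
  refine Polynomial.funext fun y => ?_
  simp only [eval_add, eval_mul, eval_one, eval_C, eval_X, eval_pow, eval_sub]
  have c0 : α1 * α1 - β1 * β1 = 0 := by rw [hα1, hβ1]; ring
  have c1 : 2 * α1 * α2 - 2 * β1 * β2 - n * β1 * β1 = 0 := by rw [hα1, hα2, hβ1, hβ2]; ring
  have c2 : 2 * α1 * α3 + α2 * α2 - 2 * β1 * β3 - β2 * β2 - 2 * n * β1 * β2 - e2 * β1 * β1 = 0 := by
    rw [hα1, hα2, hα3, hβ1, hβ2, hβ3, he2]; ring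
  have c3 : 2 * α1 * α4 + 2 * α2 * α3 - 2 * β1 * β4 - 2 * β2 * β3 - n * (2 * β1 * β3 + β2 * β2) -
      e2 * (2 * β1 * β2) - e3 * β1 * β1 = -((n + 1) ^ 2 * n * (n + 2)) / 192 := by
    rw [hα1, hα2, hα3, hα4, hβ1, hβ2, hβ3, hβ4, he2, he3]; ring
  rw [he1]
  linear_combination c0 + y * c1 + y ^ 2 * c2 + y ^ 3 * c3

/-- the key local expansion -/
lemma local_expansion (n : ℕ) : ∃ Z : ℂ[X],
    ((1 + C (1 / 2) * X) ^ (n + 1) - (1 + X) ^ (n + 1) : ℂ[X]) ^ 2 -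
      (1 + X) ^ n * ((1 + C (1 / 2) * X) ^ (n + 1) - 1) ^ 2 =
    X ^ 5 * (C (-(((n : ℂ) + 1) ^ 2 * n * (n + 2)) / 192) + X * Z) := by
  obtain ⟨W1, h1⟩ := expand1 (n + 1)
  obtain ⟨W2, h2⟩ := expand2 (n + 1)
  obtain ⟨W3, h3⟩ := expand1 n
  obtain ⟨Zp, hZ⟩ := low_terms (n : ℂ)
  have e1 : ((n + 1 : ℕ) : ℂ) = (n : ℂ) + 1 := by push_cast; ring
  have e2 : ((n : ℂ) + 1 - 1) = n := by ring
  have e3 : ((n : ℂ) + 1 - 2) = n - 1 := by ring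
  have e4 : ((n : ℂ) + 1 - 3) = n - 2 := by ring
  rw [e1, e2, e3, e4] at h1 h2
  rw [h1, h2, h3]
  set A1 : ℂ[X] := (C (((n : ℂ) + 1) / 2 - (n + 1)) + C (((n : ℂ) + 1) * n / 8 - (n + 1) * n / 2) * X +
      C (((n : ℂ) + 1) * n * (n - 1) / 48 - (n + 1) * n * (n - 1) / 6) * X ^ 2 +
      C (((n : ℂ) + 1) * n * (n - 1) * (n - 2) / 384 - (n + 1) * n * (n - 1) * (n - 2) / 24) * X ^ 3)
    with hA1
  set B1 : ℂ[X] := (C (((n : ℂ) + 1) / 2) + C (((n : ℂ) + 1) * n / 8) * X +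
      C (((n : ℂ) + 1) * n * (n - 1) / 48) * X ^ 2 +
      C (((n : ℂ) + 1) * n * (n - 1) * (n - 2) / 384) * X ^ 3) with hB1
  set E3 : ℂ[X] := (1 + C (n : ℂ) * X + C ((n : ℂ) * (n - 1) / 2) * X ^ 2 +
      C ((n : ℂ) * (n - 1) * (n - 2) / 6) * X ^ 3) with hE3
  set W4 : ℂ[X] := C ((n : ℂ) * (n - 1) * (n - 2) * (n - 3) / 24) + X * W3 with hW4
  refine ⟨Zp + 2 * A1 * (W2 - W1) + X ^ 4 * (W2 - W1) ^ 2 - W4 * (B1 + X ^ 4 * W2) ^ 2 -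
    E3 * (2 * B1 * W2 + X ^ 4 * W2 ^ 2), ?_⟩
  have hA : (1 + C (((n : ℂ) + 1) / 2) * X + C (((n : ℂ) + 1) * n / 8) * X ^ 2 +
      C (((n : ℂ) + 1) * n * (n - 1) / 48) * X ^ 3 +
      C (((n : ℂ) + 1) * n * (n - 1) * (n - 2) / 384) * X ^ 4 + X ^ 5 * W2) -
      (1 + C ((n : ℂ) + 1) * X + C (((n : ℂ) + 1) * n / 2) * X ^ 2 +
      C (((n : ℂ) + 1) * n * (n - 1) / 6) * X ^ 3 +
      C (((n : ℂ) + 1) * n * (n - 1) * (n - 2) / 24) * X ^ 4 + X ^ 5 * W1) =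
      X * A1 + X ^ 5 * (W2 - W1) := by
    rw [hA1]
    simp only [C_sub]
    ring
  have hB : (1 + C (((n : ℂ) + 1) / 2) * X + C (((n : ℂ) + 1) * n / 8) * X ^ 2 +
      C (((n : ℂ) + 1) * n * (n - 1) / 48) * X ^ 3 +
      C (((n : ℂ) + 1) * n * (n - 1) * (n - 2) / 384) * X ^ 4 + X ^ 5 * W2) - 1 =
      X * B1 + X ^ 5 * W2 := by
    rw [hB1]
    ring
  have hE : 1 + C (n : ℂ) * X + C ((n : ℂ) * (n - 1) / 2) * X ^ 2 +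
      C ((n : ℂ) * (n - 1) * (n - 2) / 6) * X ^ 3 +
      C ((n : ℂ) * (n - 1) * (n - 2) * (n - 3) / 24) * X ^ 4 + X ^ 5 * W3 = E3 + X ^ 4 * W4 := by
    rw [hE3, hW4]
    ring
  rw [hA, hB, hE]
  linear_combination X ^ 2 * hZ

/-- Module A4b. -/
theorem minorOrder : MinorOrderStatement := by
  intro d hd
  obtain ⟨n, rfl⟩ : ∃ n, d = n + 2 := ⟨d - 2, by omega⟩
  have hn : n ≠ 0 := by omega
  obtain ⟨Z, hZ⟩ := local_expansion n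
  set G : ℂ[X] := ((1 + X) ^ (n + 1) - C (2 ^ (n + 1)) * X ^ (n + 1)) ^ 2 -
      X ^ n * ((1 + X) ^ (n + 1) - C (2 ^ (n + 1))) ^ 2 with hG
  set κ : ℂ := -(((n : ℂ) + 1) ^ 2 * n * (n + 2)) / 192 with hκ
  set H : ℂ[X] := C (2 ^ (n + 1)) ^ 2 * (C κ + (X - 1) * Z.comp (X - 1)) with hH
  have h2 : (C (2 : ℂ)) * C (1 / 2) = 1 := by rw [← C_mul]; norm_num
  have hp : (2 + X : ℂ[X]) ^ (n + 1) = C (2 ^ (n + 1)) * (1 + C (1 / 2) * X) ^ (n + 1) := by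
    rw [C_pow, ← mul_pow]
    congr 1
    rw [mul_add, ← mul_assoc, h2, one_mul, mul_one]
    rfl
  have hGc : G.comp (X + 1) = C (2 ^ (n + 1)) ^ 2 * (X ^ 5 * (C κ + X * Z)) := by
    rw [← hZ, hG]
    simp only [sub_comp, mul_comp, pow_comp, add_comp, one_comp, X_comp, C_comp]
    rw [show (1 + (X + 1) : ℂ[X]) = 2 + X by ring, hp, show (X + 1 : ℂ[X]) = 1 + X by ring]
    ring
  have hGH : G = (X - 1) ^ 5 * H := by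
    have h3 := congrArg (fun p : ℂ[X] => p.comp (X - 1)) hGc
    simp only [comp_assoc] at h3
    rw [show (X + 1 : ℂ[X]).comp (X - 1) = X by simp, comp_X] at h3
    rw [h3, hH]
    simp only [mul_comp, pow_comp, add_comp, X_comp, C_comp]
    ring
  have hG0 : G.eval 0 = 1 := by
    rw [hG]
    simp [hn]
  have hc : ((n : ℂ) + 2) ≠ 0 := by exact_mod_cast (by omega : n + 2 ≠ 0)
  have hc1 : ((n : ℂ) + 1) ≠ 0 := by exact_mod_cast (by omega : n + 1 ≠ 0)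
  have hc0 : (n : ℂ) ≠ 0 := by exact_mod_cast hn
  refine ⟨-(C ((n : ℂ) + 2) * C ((n : ℂ) + 2)) * H, ?_, ?_, ?_⟩
  · have h4 : mi (n + 2) (n + 2) 0 = -mi (n + 2) 0 (n + 2) := by
      simp only [mi]; ring
    rw [h4, mi_zero_last, ← hG, hGH]
    ring
  · have h5 : H.eval 0 ≠ 0 := by
      intro h
      rw [hGH] at hG0
      rw [eval_mul, h, mul_zero] at hG0
      exact zero_ne_one hG0
    simp only [eval_mul, eval_neg, eval_C]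
    exact mul_ne_zero (neg_ne_zero.2 (mul_ne_zero hc hc)) h5
  · have h6 : H.eval 1 = (2 ^ (n + 1)) ^ 2 * κ := by
      rw [hH]
      simp [eval_comp]
    simp only [eval_mul, eval_neg, eval_C]
    rw [h6]
    refine mul_ne_zero (neg_ne_zero.2 (mul_ne_zero hc hc)) (mul_ne_zero
      (pow_ne_zero _ (pow_ne_zero _ (by norm_num))) ?_)
    rw [hκ]
    refine div_ne_zero (neg_ne_zero.2 (mul_ne_zero (mul_ne_zero (pow_ne_zero _ hc1) hc0) hc))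
      (by norm_num)

end

end Helper73_ED
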