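import Pool.Agent.Helper73_ED.Statements

open MvPolynomial
open scoped Polynomial

namespace Helper73_ED

noncomputable section

lemma fU_coeff (d : ℕ) (U : Fin (d + 1) → ℂ) (k : ℕ) (hk : k ≤ d) :
    (fU d U).coeff k = Polynomial.C (U ⟨k, Nat.lt_succ_of_le hk⟩) * aP d k := by
  rw [fU, Polynomial.finsetSum_coeff]
  rw [Finset.sum_eq_single ⟨k, Nat.lt_succ_of_le hk⟩]
  · rw [Polynomial.coeff_C_mul, Polynomial.coeff_X_pow, if_pos rfl, mul_one]
  · intro b _ hb
    have : k ≠ (b : ℕ) := fun h => hb (Fin.ext h.symm)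
    simp only [Polynomial.coeff_C_mul, Polynomial.coeff_X_pow, if_neg this, mul_zero]
  · intro h; exact absurd (Finset.mem_univ _) h

lemma gU_coeff (d : ℕ) (U : Fin (d + 1) → ℂ) (k : ℕ) (hk : k ≤ d) :
    (gU d U).coeff k = Polynomial.C (U ⟨k, Nat.lt_succ_of_le hk⟩) * bP d k := by
  rw [gU, Polynomial.finsetSum_coeff]
  rw [Finset.sum_eq_single ⟨k, Nat.lt_succ_of_le hk⟩]
  · rw [Polynomial.coeff_C_mul, Polynomial.coeff_X_pow, if_pos rfl, mul_one]
  · intro b _ hb
    have : k ≠ (b : ℕ) := fun h => hb (Fin.ext h.symm)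
    simp only [Polynomial.coeff_C_mul, Polynomial.coeff_X_pow, if_neg this, mul_zero]
  · intro h; exact absurd (Finset.mem_univ _) h

lemma fU_natDegree (d : ℕ) (U : Fin (d + 1) → ℂ) : (fU d U).natDegree ≤ d := by
  rw [fU]
  apply Polynomial.natDegree_sum_le_of_forall_le
  intro j _
  exact (Polynomial.natDegree_C_mul_X_pow_le _ _).trans (Nat.lt_succ_iff.1 j.isLt)

lemma gU_natDegree (d : ℕ) (U : Fin (d + 1) → ℂ) : (gU d U).natDegree ≤ d := by
  rw [gU]
  apply Polynomial.natDegree_sum_le_of_forall_le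
  intro j _
  exact (Polynomial.natDegree_C_mul_X_pow_le _ _).trans (Nat.lt_succ_iff.1 j.isLt)

lemma aPd_ne_zero (d : ℕ) (hd : 4 ≤ d) : aP d d ≠ 0 := by
  intro h
  have h1 := congrArg (Polynomial.eval (-1 : ℂ)) h
  simp only [aP, Polynomial.eval_sub, Polynomial.eval_mul, Polynomial.eval_pow,
    Polynomial.eval_add, Polynomial.eval_one, Polynomial.eval_X, Polynomial.eval_C,
    Polynomial.eval_zero] at h1
  rw [show (1 : ℂ) + -1 = 0 by norm_num, zero_pow (by omega : d - 1 ≠ 0)] at h1
  have h2 : (2 : ℂ) ^ (d - 1) ≠ 0 := pow_ne_zero _ (by norm_num)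
  have h3 : (-1 : ℂ) ^ d ≠ 0 := pow_ne_zero _ (by norm_num)
  have hd' : (d : ℂ) ≠ 0 := by
    have : d ≠ 0 := by omega
    exact_mod_cast this
  have : (2 : ℂ) ^ (d - 1) * (-1) ^ d * (d : ℂ) = 0 := by
    linear_combination h1
  simp [h2, h3, hd'] at this

theorem specialZero : SpecialZeroStatement := by
  intro d hd
  set U : Fin (d + 1) → ℂ := dl d 0 + dl d d with hU
  have hf := fU_natDegree d U
  have hg := gU_natDegree d U
  have hUk : ∀ k : ℕ, ∀ hk : k ≤ d, U ⟨k, Nat.lt_succ_of_le hk⟩ =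
      if k = 0 ∨ k = d then 1 else 0 := by
    intro k hk
    simp only [hU, Pi.add_apply, dl]
    by_cases h0 : k = 0
    · subst h0
      have : ¬ (0 = d) := by omega
      simp [this]
    · by_cases h1 : k = d
      · subst h1; simp [h0]
      · simp [h0, h1]
  have hadd : aP d d ≠ 0 := aPd_ne_zero d hd
  -- a_d g - b_d f = C (a_d b_0 - b_d a_0)
  have hcomb : Polynomial.C (aP d d) * gU d U + fU d U * Polynomial.C (-(bP d d)) =
      Polynomial.C (mi d d 0) := by
    ext1 k
    rcases Nat.lt_or_ge d k with hk | hk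
    · have e1 : (gU d U).coeff k = 0 :=
        Polynomial.coeff_eq_zero_of_natDegree_lt (lt_of_le_of_lt hg hk)
      have e2 : (fU d U).coeff k = 0 :=
        Polynomial.coeff_eq_zero_of_natDegree_lt (lt_of_le_of_lt hf hk)
      have hk0 : k ≠ 0 := by omega
      rw [Polynomial.coeff_add, Polynomial.coeff_C_mul, Polynomial.coeff_mul_C, e1, e2,
        Polynomial.coeff_C, if_neg hk0]
      ring
    · rw [Polynomial.coeff_add, Polynomial.coeff_C_mul, Polynomial.coeff_mul_C,
        gU_coeff d U k hk, fU_coeff d U k hk, hUk k hk, Polynomial.coeff_C]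
      by_cases h0 : k = 0
      · subst h0
        simp only [true_or, if_true, mi, map_one]
        ring
      · by_cases h1 : k = d
        · subst h1
          simp only [or_true, if_true, if_neg h0, map_one]
          ring
        · have : ¬ (k = 0 ∨ k = d) := by tauto
          simp only [if_neg this, if_neg h0, map_zero]
          ring
  have h1 : (aP d d) ^ d * RU d U = (aP d d) ^ d * (mi d d 0) ^ d := by
    have e1 := Polynomial.resultant_C_mul_right (fU d U) (gU d U) d d (aP d d)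
    have e2 := Polynomial.resultant_add_mul_right (fU d U) (Polynomial.C (aP d d) * gU d U)
      (Polynomial.C (-(bP d d))) d d (by simp) hf
    rw [RU, ← e1, ← e2, hcomb, Polynomial.resultant_C_right, fU_coeff d U d le_rfl,
      hUk d le_rfl]
    simp
  exact mul_left_cancel₀ (pow_ne_zero _ hadd) h1

/-! ### A6 -/

lemma norm_argument (d : ℕ) (hd : 4 ≤ d) (c : ℂ) (h1 : (1 + c) ^ (d - 1) = 2 ^ (d - 1))
    (h2 : c ^ (d - 1) = 1) : c = 1 := by
  have hd1 : d - 1 ≠ 0 := by omega
  have n1 : ‖1 + c‖ = 2 := by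
    have := congrArg norm h1
    rw [norm_pow, norm_pow] at this
    have h3 : ‖(2 : ℂ)‖ = 2 := by simp
    rw [h3] at this
    exact (pow_left_inj₀ (norm_nonneg _) (by norm_num) hd1).1 this
  have n2 : ‖c‖ = 1 := by
    have := congrArg norm h2
    rw [norm_pow, norm_one] at this
    exact (pow_eq_one_iff_of_nonneg (norm_nonneg _) hd1).1 this
  have e1 : Complex.normSq (1 + c) = 4 := by
    rw [Complex.normSq_eq_norm_sq, n1]; norm_num
  have e2 : Complex.normSq c = 1 := by
    rw [Complex.normSq_eq_norm_sq, n2]; norm_num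
  rw [Complex.normSq_apply] at e1 e2
  simp only [Complex.add_re, Complex.add_im, Complex.one_re, Complex.one_im, zero_add] at e1
  have hre : c.re = 1 := by nlinarith
  have him : c.im = 0 := by
    rw [hre] at e2
    have : c.im * c.im = 0 := by linarith
    exact mul_self_eq_zero.1 this
  exact Complex.ext (by simpa using hre) (by simpa using him)

lemma eval_aP (d j : ℕ) (c : ℂ) : (aP d j).eval c =
    (1 + c) ^ (d - 1) * (d - j * (1 + c)) - 2 ^ (d - 1) * (d - 2 * j) * c ^ j := by
  simp [aP]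

lemma eval_bP (d j : ℕ) (c : ℂ) : (bP d j).eval c =
    c ^ j * (1 + c) ^ (d - 1) * (d * c - j * (1 + c)) -
      2 ^ (d - 1) * (d - 2 * j) * c ^ d := by
  simp [bP]

theorem minors : MinorsStatement := by
  intro d hd c hc0 hc1
  have hdC : (d : ℂ) ≠ 0 := by
    have : d ≠ 0 := by omega
    exact_mod_cast this
  have hT : (2 : ℂ) ^ (d - 1) ≠ 0 := pow_ne_zero _ (by norm_num)
  have hcd : c ^ d = c * c ^ (d - 1) := by
    rw [← pow_succ']; congr 1; omega
  have key : ¬ ((1 + c) ^ (d - 1) = 2 ^ (d - 1) ∧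
      (1 + c) ^ (d - 1) = 2 ^ (d - 1) * c ^ (d - 1)) := by
    rintro ⟨h1, h2⟩
    rw [h1] at h2
    have h3 : c ^ (d - 1) = 1 := by
      have : (2 : ℂ) ^ (d - 1) * c ^ (d - 1) = 2 ^ (d - 1) * 1 := by rw [← h2, mul_one]
      exact mul_left_cancel₀ hT this
    exact hc1 (norm_argument d hd c h1 h3)
  have ha0 : (aP d 0).eval c ≠ 0 ∨ (bP d 0).eval c ≠ 0 := by
    by_contra hcon
    push Not at hcon
    obtain ⟨h1, h2⟩ := hcon
    rw [eval_aP] at h1
    rw [eval_bP] at h2
    simp only [Nat.cast_zero, zero_mul, sub_zero, mul_zero, pow_zero, mul_one, one_mul] at h1 h2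
    apply key
    constructor
    · have : ((1 + c) ^ (d - 1) - 2 ^ (d - 1)) * (d : ℂ) = 0 := by linear_combination h1
      exact sub_eq_zero.1 ((mul_eq_zero.1 this).resolve_right hdC)
    · have : ((1 + c) ^ (d - 1) - 2 ^ (d - 1) * c ^ (d - 1)) * ((d : ℂ) * c) = 0 := by
        rw [hcd] at h2; linear_combination h2
      exact sub_eq_zero.1 ((mul_eq_zero.1 this).resolve_right (mul_ne_zero hdC hc0))
  have had : (aP d d).eval c ≠ 0 ∨ (bP d d).eval c ≠ 0 := by
    by_contra hcon
    push Not at hcon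
    obtain ⟨h1, h2⟩ := hcon
    rw [eval_aP] at h1
    rw [eval_bP] at h2
    apply key
    constructor
    · have : ((1 + c) ^ (d - 1) - 2 ^ (d - 1)) * ((d : ℂ) * c ^ d) = 0 := by
        linear_combination -h2
      exact sub_eq_zero.1 ((mul_eq_zero.1 this).resolve_right
        (mul_ne_zero hdC (pow_ne_zero _ hc0)))
    · have : ((1 + c) ^ (d - 1) - 2 ^ (d - 1) * c ^ (d - 1)) * ((d : ℂ) * c) = 0 := by
        rw [hcd] at h1; linear_combination -h1
      exact sub_eq_zero.1 ((mul_eq_zero.1 this).resolve_right (mul_ne_zero hdC hc0))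
  refine ⟨?_, ha0, had⟩
  by_contra hcon
  push Not at hcon
  have hall : ∀ j ≤ d, (mi d 0 j).eval c = 0 := by
    intro j hj
    rcases Nat.eq_zero_or_pos j with h | h
    · subst h; simp [mi]
    · exact hcon 0 j h hj
  -- λ a_j + μ b_j = 0 with λ = b_0, μ = -a_0
  set lam := (bP d 0).eval c with hlam
  set mu := -(aP d 0).eval c with hmu
  have hlin : ∀ j ≤ d, lam * (aP d j).eval c + mu * (bP d j).eval c = 0 := by
    intro j hj
    have := hall j hj
    simp only [mi, Polynomial.eval_sub, Polynomial.eval_mul] at this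
    rw [hlam, hmu]
    linear_combination -this
  set P := (1 + c) ^ (d - 1) with hP
  set T := (2 : ℂ) ^ (d - 1) with hTdef
  set K0 := (d : ℂ) * (lam * P - mu * T * c ^ d) with hK0
  set K1 := -lam * P * (1 + c) + 2 * mu * T * c ^ d with hK1
  set K2 := (d : ℂ) * (-lam * T + mu * P * c) with hK2
  set K3 := 2 * lam * T - mu * P * (1 + c) with hK3
  have hK : ∀ j ≤ d, K0 + K1 * j + K2 * c ^ j + K3 * j * c ^ j = 0 := by
    intro j hj
    have := hlin j hj
    rw [eval_aP, eval_bP] at this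
    rw [hK0, hK1, hK2, hK3]
    linear_combination this
  have q0 := hK 0 (by omega)
  have q1 := hK 1 (by omega)
  have q2 := hK 2 (by omega)
  have q3 := hK 3 (by omega)
  push_cast at q0 q1 q2 q3
  simp only [mul_zero, zero_mul, pow_zero, mul_one, add_zero, pow_one] at q0 q1 q2 q3
  have hc1' : c - 1 ≠ 0 := sub_ne_zero.2 hc1
  -- K3 : combination (E-1)^2 (E-c) f(0), where f(j) = ...
  have r3 : K3 * (c * (c - 1) ^ 2) = 0 := by
    linear_combination q3 - (c + 2) * q2 + (2 * c + 1) * q1 - c * q0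
  have hK3z : K3 = 0 := by
    rcases mul_eq_zero.1 r3 with h | h
    · exact h
    · exact absurd h (mul_ne_zero hc0 (pow_ne_zero _ hc1'))
  rw [hK3z] at q1 q2 q3
  have r1 : K1 * (1 - c) = 0 := by
    linear_combination q2 - (1 + c) * q1 + c * q0
  have hK1z : K1 = 0 := by
    rcases mul_eq_zero.1 r1 with h | h
    · exact h
    · exact absurd (by linear_combination -h : c - 1 = 0) hc1'
  rw [hK1z] at q1 q2 q3
  have r2 : K2 * (c - 1) = 0 := by linear_combination q1 - q0
  have hK2z : K2 = 0 := (mul_eq_zero.1 r2).resolve_right hc1'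
  rw [hK2z] at q0
  have hK0z : K0 = 0 := by linear_combination q0
  have s0 : lam * P - mu * T * c ^ d = 0 := (mul_eq_zero.1 hK0z).resolve_left hdC
  have s1 : -lam * P * (1 + c) + 2 * mu * T * c ^ d = 0 := hK1z
  have s2 : -lam * T + mu * P * c = 0 := (mul_eq_zero.1 hK2z).resolve_left hdC
  have t1 : lam * P * (c - 1) = 0 := by linear_combination -2 * s0 - s1
  have t2 : lam * P = 0 := (mul_eq_zero.1 t1).resolve_right hc1'
  have t3 : mu * (T * c ^ d) = 0 := by linear_combination t2 - s0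
  have t4 : mu = 0 := (mul_eq_zero.1 t3).resolve_right (mul_ne_zero hT (pow_ne_zero _ hc0))
  have t5 : lam * T = 0 := by rw [t4] at s2; linear_combination -s2
  have t6 : lam = 0 := (mul_eq_zero.1 t5).resolve_right hT
  rcases ha0 with h | h
  · exact h (neg_eq_zero.1 (by rw [← hmu]; exact t4))
  · exact h t6

end

end Helper73_ED
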