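import Pool.Agent.Helper73_ED.Statements

open MvPolynomial
open scoped Polynomial

namespace Helper73_ED

noncomputable section

theorem dimThm : DimStatement := by
  intro m n φ hmn
  by_contra hcon
  push Not at hcon
  have hinj : AlgebraicIndependent ℂ φ := by
    rw [algebraicIndependent_iff]
    intro p hp
    by_contra h0
    obtain ⟨y, hy⟩ := hcon p h0
    apply hy
    have h1 : (eval y).comp ((aeval φ : MvPolynomial (Fin n) ℂ →ₐ[ℂ] MvPolynomial (Fin m) ℂ) :
        MvPolynomial (Fin n) ℂ →+* MvPolynomial (Fin m) ℂ) = eval (fun i => eval y (φ i)) := by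
      apply MvPolynomial.ringHom_ext
      · intro r; simp
      · intro i; simp
    have h2 : eval (fun i => eval y (φ i)) p = eval y (aeval φ p) :=
      (congrArg (fun f => f p) h1).symm
    rw [h2, hp, map_zero]
  have h1 := hinj.cardinalMk_le_trdeg
  rw [MvPolynomial.trdeg_of_isDomain] at h1
  simp at h1
  omega

/-- the polynomial `∑ binom(d,j) y_j X^j` -/
def up (d : ℕ) (y : Fin (d + 1) → ℂ) : ℂ[X] :=
  ∑ j : Fin (d + 1), Polynomial.C (toU d y j) * Polynomial.X ^ (j : ℕ)

lemma up_coeff (d : ℕ) (y : Fin (d + 1) → ℂ) (j : Fin (d + 1)) :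
    (up d y).coeff j = toU d y j := by
  rw [up, Polynomial.finsetSum_coeff, Finset.sum_eq_single j]
  · rw [Polynomial.coeff_C_mul, Polynomial.coeff_X_pow, if_pos rfl, mul_one]
  · intro b _ hb
    have : (j : ℕ) ≠ (b : ℕ) := fun h => hb (Fin.ext h.symm)
    rw [Polynomial.coeff_C_mul, Polynomial.coeff_X_pow, if_neg this, mul_zero]
  · intro h; exact absurd (Finset.mem_univ _) h

lemma up_natDegree (d : ℕ) (y : Fin (d + 1) → ℂ) : (up d y).natDegree ≤ d := by
  rw [up]
  apply Polynomial.natDegree_sum_le_of_forall_le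
  intro j _
  exact (Polynomial.natDegree_C_mul_X_pow_le _ _).trans (Nat.lt_succ_iff.1 j.isLt)

lemma up_add (d : ℕ) (y z : Fin (d + 1) → ℂ) : up d (y + z) = up d y + up d z := by
  rw [up, up, up, ← Finset.sum_add_distrib]
  refine Finset.sum_congr rfl fun j _ => ?_
  simp only [toU, Pi.add_apply, mul_add, map_add, add_mul]

lemma up_sub (d : ℕ) (y z : Fin (d + 1) → ℂ) : up d (y - z) = up d y - up d z := by
  rw [up, up, up, ← Finset.sum_sub_distrib]
  refine Finset.sum_congr rfl fun j _ => ?_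
  simp only [toU, Pi.sub_apply, mul_sub, map_sub, sub_mul]

lemma up_smul (d : ℕ) (c : ℂ) (y : Fin (d + 1) → ℂ) :
    up d (c • y) = Polynomial.C c * up d y := by
  rw [up, up, Finset.mul_sum]
  refine Finset.sum_congr rfl fun j _ => ?_
  simp only [toU, Pi.smul_apply, smul_eq_mul, map_mul]; ring

lemma up_mom0 (d : ℕ) (t : ℂ) : up d (mom d 0 t) = (Polynomial.C t + Polynomial.X) ^ d := by
  rw [add_comm (Polynomial.C t), add_pow, up, Finset.sum_range]
  refine Finset.sum_congr rfl fun j _ => ?_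
  simp only [toU, mom, Nat.choose_zero_right, Nat.cast_one, one_mul, Nat.sub_zero, map_mul,
    map_pow]
  rw [← Polynomial.C_eq_natCast]; ring

lemma up_mom1 (d : ℕ) (hd : 1 ≤ d) (t : ℂ) :
    up d (mom d 1 t) = Polynomial.C (d : ℂ) * (Polynomial.C t + Polynomial.X) ^ (d - 1) := by
  obtain ⟨e, rfl⟩ : ∃ e, d = e + 1 := ⟨d - 1, by omega⟩
  rw [Nat.add_sub_cancel, add_comm (Polynomial.C t), add_pow, up, Fin.sum_univ_castSucc,
    Finset.sum_range, Finset.mul_sum]
  have hlast : toU (e + 1) (mom (e + 1) 1 t) (Fin.last (e + 1)) = 0 := by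
    simp [toU, mom]
  rw [hlast, map_zero, zero_mul, add_zero]
  refine Finset.sum_congr rfl fun j _ => ?_
  have hj : (j : ℕ) ≤ e := Nat.lt_succ_iff.1 j.isLt
  simp only [toU, mom, Nat.choose_one_right, Fin.val_castSucc, map_mul, map_pow]
  have h1 : e + 1 - (j : ℕ) - 1 = e - j := by omega
  have h2 : ((e + 1).choose j : ℂ) * ((e + 1 - (j : ℕ) : ℕ) : ℂ) =
      ((e + 1 : ℕ) : ℂ) * (e.choose j : ℂ) := by
    have := Nat.choose_mul_succ_eq e j
    have h3 : e + 1 - (j : ℕ) = e + 1 - j := rfl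
    rw [← Nat.cast_mul, ← Nat.cast_mul, mul_comm (e + 1) (e.choose j)]
    congr 1
    exact this.symm
  rw [h1]
  have h4 := congrArg (Polynomial.C : ℂ → ℂ[X]) h2
  rw [map_mul, map_mul] at h4
  rw [← Polynomial.C_eq_natCast (R := ℂ) (e.choose j)]
  linear_combination (Polynomial.C t ^ (e - (j : ℕ)) * Polynomial.X ^ (j : ℕ)) * h4

lemma up_dl0 (d : ℕ) : up d (dl d 0) = 1 := by
  rw [up, Finset.sum_eq_single 0]
  · simp [toU, dl]
  · intro b _ hb
    have : (b : ℕ) ≠ 0 := fun h => hb (Fin.ext (by simpa using h))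
    simp [toU, dl, this]
  · intro h; exact absurd (Finset.mem_univ _) h

/-- pairing with the Taylor vectors = Taylor coefficients of `up` -/
lemma BY_mom (d : ℕ) (y : Fin (d + 1) → ℂ) (k : ℕ) (s : ℂ) :
    BY d y (mom d k s) = (Polynomial.hasseDeriv k (up d y)).eval s := by
  rw [up, map_sum, Polynomial.eval_finsetSum, BY]
  refine Finset.sum_congr rfl fun j _ => ?_
  have hj : (j : ℕ) ≤ d := Nat.lt_succ_iff.1 j.isLt
  rw [Polynomial.C_mul_X_pow_eq_monomial, Polynomial.hasseDeriv_monomial,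
    Polynomial.eval_monomial]
  have h1 : d - ((Fin.rev j : Fin (d + 1)) : ℕ) = j := by
    rw [Fin.val_rev]; omega
  simp only [mom, h1, toU]
  ring

lemma BY_dl (d k : ℕ) (hk : k ≤ d) (y : Fin (d + 1) → ℂ) :
    BY d y (dl d k) = (up d y).coeff (d - k) := by
  have hj := up_coeff d y ⟨d - k, by omega⟩
  simp only at hj
  rw [hj, BY, Finset.sum_eq_single ⟨d - k, by omega⟩]
  · have : ((Fin.rev (⟨d - k, by omega⟩ : Fin (d + 1)) : Fin (d + 1)) : ℕ) = k := by
      rw [Fin.val_rev]; simp only; omega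
    simp only [dl, this, toU, if_true, mul_one]
  · intro b _ hb
    have : ((Fin.rev b : Fin (d + 1)) : ℕ) ≠ k := by
      intro h
      apply hb
      have := b.isLt
      rw [Fin.val_rev] at h
      exact Fin.ext (by simp only; omega)
    simp only [dl, if_neg this, mul_zero]
  · intro h; exact absurd (Finset.mem_univ _) h

/-- vanishing of the first `n` Taylor coefficients -/
lemma pow_dvd_of_hasse (p : ℂ[X]) (s : ℂ) (n : ℕ)
    (h : ∀ k < n, (Polynomial.hasseDeriv k p).eval s = 0) :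
    (Polynomial.X - Polynomial.C s) ^ n ∣ p := by
  rw [Polynomial.X_sub_C_pow_dvd_iff, Polynomial.X_pow_dvd_iff]
  intro k hk
  have := h k hk
  rwa [← Polynomial.taylor_coeff] at this

/-- bad sets from families of polynomials -/
lemma bad_of_family (d : ℕ) (G : (MvPolynomial (Fin d) ℂ)[X]) :
    ∃ D : MvPolynomial (Fin (d + 1)) ℂ, D ≠ 0 ∧ ∀ u : Fin (d + 1) → ℂ,
      (∃ y : Fin d → ℂ, up d u = G.map (eval y)) → eval u D = 0 := by
  obtain ⟨D, hD, hv⟩ := dimThm d (d + 1)
    (fun j => C ((d.choose j : ℂ)⁻¹) * G.coeff j) (by omega)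
  refine ⟨D, hD, ?_⟩
  rintro u ⟨y, hy⟩
  have := hv y
  have hu : (fun i : Fin (d + 1) => eval y (C ((d.choose i : ℂ)⁻¹) * G.coeff i)) = u := by
    funext j
    rw [map_mul, eval_C]
    have h1 : eval y (G.coeff j) = toU d u j := by
      rw [← up_coeff, hy, Polynomial.coeff_map]
    rw [h1, toU]
    have hc : (d.choose j : ℂ) ≠ 0 := by
      have := Nat.choose_pos (Nat.lt_succ_iff.1 j.isLt)
      exact_mod_cast this.ne'
    field_simp
  rwa [hu] at this

/-- cofactor polynomial with generic coefficients -/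
def cof (d : ℕ) (hd : 4 ≤ d) : (MvPolynomial (Fin d) ℂ)[X] :=
  ∑ i : Fin (d - 3), Polynomial.C (X (⟨3 + (i : ℕ), by omega⟩ : Fin d)) *
    Polynomial.X ^ (i : ℕ)

/-- parameter vector -/
def par (d : ℕ) (a b c : ℂ) (q : ℂ[X]) : Fin d → ℂ := fun i =>
  if (i : ℕ) = 0 then a else if (i : ℕ) = 1 then b else if (i : ℕ) = 2 then c
  else q.coeff ((i : ℕ) - 3)

lemma cof_map (d : ℕ) (hd : 4 ≤ d) (a b c : ℂ) (q : ℂ[X]) (hq : q.natDegree ≤ d - 4) :
    (cof d hd).map (eval (par d a b c q)) = q := by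
  rw [cof, Polynomial.map_sum]
  conv_rhs => rw [q.as_sum_range_C_mul_X_pow' (show q.natDegree < d - 3 by omega),
    Finset.sum_range]
  refine Finset.sum_congr rfl fun i _ => ?_
  simp only [Polynomial.map_mul, Polynomial.map_C, eval_X, Polynomial.map_pow, Polynomial.map_X]
  congr 2
  simp only [par]
  have h0 : ¬ (3 + (i : ℕ) = 0) := by omega
  have h1 : ¬ (3 + (i : ℕ) = 1) := by omega
  have h2 : ¬ (3 + (i : ℕ) = 2) := by omega
  rw [if_neg h0, if_neg h1, if_neg h2, Nat.add_sub_cancel_left]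

lemma natDegree_cofactor (A p q : ℂ[X]) (hA : A.Monic) (m : ℕ) (hAd : A.natDegree = m)
    (e : ℕ) (hp : p.natDegree ≤ e) (h : p = A * q) : q.natDegree ≤ e - m := by
  by_cases hq : q = 0
  · subst hq; simp
  · rw [h, hA.natDegree_mul' hq, hAd] at hp
    omega

/-- the condition `Cond` gives divisibility -/
lemma cond_dvd (d : ℕ) (u : Fin (d + 1) → ℂ) (s t α β : ℂ) (hst : s ≠ t)
    (h : Cond d u s t α β) :
    (Polynomial.X - Polynomial.C s) ^ 2 * (Polynomial.X - Polynomial.C t) ^ 2 ∣
      up d (α • mom d 0 s + β • mom d 0 t - u) := by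
  obtain ⟨h1, h2, h3, h4⟩ := h
  rw [BY_mom] at h1 h2 h3 h4
  have hc : IsCoprime ((Polynomial.X - Polynomial.C s : ℂ[X]) ^ 2)
      ((Polynomial.X - Polynomial.C t) ^ 2) :=
    (Polynomial.isCoprime_X_sub_C_of_isUnit_sub (IsUnit.mk0 _ (sub_ne_zero.2 hst))).pow
  apply hc.mul_dvd
  · apply pow_dvd_of_hasse
    intro k hk
    interval_cases k
    · exact h1
    · exact h2
  · apply pow_dvd_of_hasse
    intro k hk
    interval_cases k
    · exact h3
    · exact h4

theorem bad : BadStatement := by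
  intro d hd
  -- index of parameters
  let i0 : Fin d := ⟨0, by omega⟩
  let i1 : Fin d := ⟨1, by omega⟩
  let i2 : Fin d := ⟨2, by omega⟩
  have p0 : ∀ a b c : ℂ, ∀ q : ℂ[X], par d a b c q i0 = a := fun a b c q => by simp [par, i0]
  have p1 : ∀ a b c : ℂ, ∀ q : ℂ[X], par d a b c q i1 = b := fun a b c q => by simp [par, i1]
  have p2 : ∀ a b c : ℂ, ∀ q : ℂ[X], par d a b c q i2 = c := fun a b c q => by simp [par, i2]
  -- the five families
  obtain ⟨D1, hD1, hv1⟩ := bad_of_family d
    (Polynomial.C (X i1) * (Polynomial.C (X i0) + Polynomial.X) ^ d +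
      Polynomial.C (X i2) * (Polynomial.C (C (d : ℂ)) *
        (Polynomial.C (X i0) + Polynomial.X) ^ (d - 1)) -
      (Polynomial.X - Polynomial.C (X i0)) ^ 4 * cof d hd)
  obtain ⟨D2, hD2, hv2⟩ := bad_of_family d
    (Polynomial.C (X i1) * (Polynomial.C (X i0) + Polynomial.X) ^ d +
      Polynomial.C (X i2) * 1 -
      (Polynomial.X - Polynomial.C (X i0)) ^ 2 * cof d hd)
  obtain ⟨D3, hD3, hv3⟩ := bad_of_family d
    (Polynomial.C (X i1) * (Polynomial.C 0 + Polynomial.X) ^ d +
      Polynomial.C (X i2) * (Polynomial.C (X i0) + Polynomial.X) ^ d -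
      (Polynomial.X - Polynomial.C 0) ^ 2 * (Polynomial.X - Polynomial.C (X i0)) ^ 2 *
        cof d hd)
  obtain ⟨D4, hD4, hv4⟩ := bad_of_family d
    (Polynomial.C (X i1) * (Polynomial.C (X i0) + Polynomial.X) ^ d +
      Polynomial.C (X i2) * (Polynomial.C (-(X i0)) + Polynomial.X) ^ d -
      (Polynomial.X - Polynomial.C (X i0)) ^ 2 * (Polynomial.X - Polynomial.C (-(X i0))) ^ 2 *
        cof d hd)
  obtain ⟨D5, hD5, hv5⟩ := bad_of_family d
    (Polynomial.C (X i2) * (Polynomial.C (X i1) + Polynomial.X) ^ d -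
      (Polynomial.X - Polynomial.C (X i0)) ^ 2 * (Polynomial.X - Polynomial.C (X i1)) ^ 2 *
        cof d hd)
  have mon2 : ∀ s t : ℂ, ((Polynomial.X - Polynomial.C s : ℂ[X]) ^ 2 *
      (Polynomial.X - Polynomial.C t) ^ 2).Monic := fun s t =>
    ((Polynomial.monic_X_sub_C s).pow 2).mul ((Polynomial.monic_X_sub_C t).pow 2)
  have deg2 : ∀ s t : ℂ, ((Polynomial.X - Polynomial.C s : ℂ[X]) ^ 2 *
      (Polynomial.X - Polynomial.C t) ^ 2).natDegree = 4 := fun s t => by
    rw [((Polynomial.monic_X_sub_C s).pow 2).natDegree_mul ((Polynomial.monic_X_sub_C t).pow 2),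
      (Polynomial.monic_X_sub_C s).natDegree_pow, (Polynomial.monic_X_sub_C t).natDegree_pow,
      Polynomial.natDegree_X_sub_C, Polynomial.natDegree_X_sub_C]
  refine ⟨X 0 * X (Fin.last d) * D1 * D2 * D3 * D4 * D5, ?_, fun u hu => ?_⟩
  · exact mul_ne_zero (mul_ne_zero (mul_ne_zero (mul_ne_zero (mul_ne_zero
      (mul_ne_zero (X_ne_zero _) (X_ne_zero _)) hD1) hD2) hD3) hD4) hD5
  simp only [map_mul, eval_X, mul_ne_zero_iff] at hu
  obtain ⟨⟨⟨⟨⟨⟨hu0, hud⟩, hu1⟩, hu2⟩, hu3⟩, hu4⟩, hu5⟩ := hu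
  refine ⟨⟨hu0, hud⟩, ?_, ?_, ?_, ?_, ?_⟩
  · intro s α β h
    apply hu1
    apply hv1
    have h1 : (Polynomial.X - Polynomial.C s) ^ 4 ∣
        up d (α • mom d 0 s + β • mom d 1 s - u) := by
      apply pow_dvd_of_hasse
      intro k hk
      rw [← BY_mom]; exact h k hk
    obtain ⟨q, hq⟩ := h1
    have hqd := natDegree_cofactor _ _ q ((Polynomial.monic_X_sub_C s).pow 4) 4
      (by rw [(Polynomial.monic_X_sub_C s).natDegree_pow, Polynomial.natDegree_X_sub_C]) d
      (up_natDegree d _) hq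
    refine ⟨par d s α β q, ?_⟩
    have hc := cof_map d hd s α β q hqd
    simp only [Polynomial.map_sub, Polynomial.map_add, Polynomial.map_mul, Polynomial.map_pow,
      Polynomial.map_C, Polynomial.map_X, eval_X, eval_C, hc, p0, p1, p2]
    rw [up_sub, up_add, up_smul, up_smul, up_mom0, up_mom1 d (by omega)] at hq
    linear_combination -hq
  · rintro s α β ⟨h1, h2, h3, h4⟩
    apply hu2
    apply hv2
    have h5 : (Polynomial.X - Polynomial.C s) ^ 2 ∣
        up d (α • mom d 0 s + β • dl d 0 - u) := by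
      apply pow_dvd_of_hasse
      intro k hk
      interval_cases k
      · rw [← BY_mom]; exact h1
      · rw [← BY_mom]; exact h2
    rw [BY_dl d 0 (by omega)] at h3
    rw [BY_dl d 1 (by omega)] at h4
    rw [Nat.sub_zero] at h3
    have hdeg : (up d (α • mom d 0 s + β • dl d 0 - u)).natDegree ≤ d - 2 := by
      rw [Polynomial.natDegree_le_iff_coeff_eq_zero]
      intro N hN
      rcases Nat.lt_or_ge d N with h | h
      · exact Polynomial.coeff_eq_zero_of_natDegree_lt
          (lt_of_le_of_lt (up_natDegree d _) h)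
      · rcases (by omega : N = d ∨ N = d - 1) with h | h
        · rw [h]; exact h3
        · rw [h]; exact h4
    obtain ⟨q, hq⟩ := h5
    have hqd := natDegree_cofactor _ _ q ((Polynomial.monic_X_sub_C s).pow 2) 2
      (by rw [(Polynomial.monic_X_sub_C s).natDegree_pow, Polynomial.natDegree_X_sub_C]) (d - 2)
      hdeg hq
    refine ⟨par d s α β q, ?_⟩
    have hc := cof_map d hd s α β q (by omega)
    simp only [Polynomial.map_sub, Polynomial.map_add, Polynomial.map_mul, Polynomial.map_pow,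
      Polynomial.map_C, Polynomial.map_X, Polynomial.map_one, eval_X, hc, p0, p1, p2]
    rw [up_sub, up_add, up_smul, up_smul, up_mom0, up_dl0] at hq
    linear_combination -hq
  · intro t α β ht h
    apply hu3
    apply hv3
    obtain ⟨q, hq⟩ := cond_dvd d u 0 t α β (Ne.symm ht) h
    have hqd := natDegree_cofactor _ _ q (mon2 0 t) 4 (deg2 0 t) d
      (up_natDegree d _) hq
    refine ⟨par d t α β q, ?_⟩
    have hc := cof_map d hd t α β q hqd
    simp only [Polynomial.map_sub, Polynomial.map_add, Polynomial.map_mul, Polynomial.map_pow,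
      Polynomial.map_C, Polynomial.map_X, eval_X, map_zero, Polynomial.map_zero, hc, p0, p1, p2]
    rw [up_sub, up_add, up_smul, up_smul, up_mom0, up_mom0] at hq
    simp only [map_zero] at hq
    linear_combination -hq
  · intro s α β hs h
    apply hu4
    apply hv4
    have hss : s ≠ -s := by
      intro h
      apply hs
      have : (2 : ℂ) * s = 0 := by linear_combination h
      exact (mul_eq_zero.1 this).resolve_left (by norm_num)
    obtain ⟨q, hq⟩ := cond_dvd d u s (-s) α β hss h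
    have hqd := natDegree_cofactor _ _ q (mon2 s (-s)) 4 (deg2 s (-s)) d
      (up_natDegree d _) hq
    refine ⟨par d s α β q, ?_⟩
    have hc := cof_map d hd s α β q hqd
    simp only [Polynomial.map_sub, Polynomial.map_add, Polynomial.map_mul, Polynomial.map_pow,
      Polynomial.map_C, Polynomial.map_X, eval_X, map_neg, Polynomial.map_neg, hc, p0, p1, p2]
    rw [up_sub, up_add, up_smul, up_smul, up_mom0, up_mom0] at hq
    simp only [map_neg] at hq
    linear_combination -hq
  · intro s t β hst h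
    apply hu5
    apply hv5
    obtain ⟨q, hq⟩ := cond_dvd d u s t 0 β hst h
    have hqd := natDegree_cofactor _ _ q (mon2 s t) 4 (deg2 s t) d
      (up_natDegree d _) hq
    refine ⟨par d s t β q, ?_⟩
    have hc := cof_map d hd s t β q hqd
    simp only [Polynomial.map_sub, Polynomial.map_add, Polynomial.map_mul, Polynomial.map_pow,
      Polynomial.map_C, Polynomial.map_X, eval_X, hc, p0, p1, p2]
    rw [up_sub, up_add, up_smul, up_smul, up_mom0, up_mom0] at hq
    simp only [map_zero, zero_mul, zero_add] at hq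
    linear_combination -hq

end

end Helper73_ED
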