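import Pool.Agent.Helper73_ED.Statements

open MvPolynomial
open scoped Polynomial

namespace Helper73_ED

noncomputable section

variable {n : ℕ}

/-- directional derivative -/
def dd (x v : Fin n → ℂ) (F : MvPolynomial (Fin n) ℂ) : ℂ := ∑ i, eval x (pderiv i F) * v i

lemma dd_C (x v : Fin n → ℂ) (a : ℂ) : dd x v (C a) = 0 := by simp [dd]

lemma dd_X (x v : Fin n → ℂ) (j : Fin n) : dd x v (X j) = v j := by
  simp only [dd, pderiv_X]
  rw [Finset.sum_eq_single j]
  · simp
  · intro i _ hij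
    rw [Pi.single_eq_of_ne hij.symm]; simp
  · intro h; exact absurd (Finset.mem_univ _) h

lemma dd_add (x v : Fin n → ℂ) (F G : MvPolynomial (Fin n) ℂ) :
    dd x v (F + G) = dd x v F + dd x v G := by
  simp only [dd, map_add, add_mul, Finset.sum_add_distrib]

lemma dd_mul (x v : Fin n → ℂ) (F G : MvPolynomial (Fin n) ℂ) :
    dd x v (F * G) = dd x v F * eval x G + eval x F * dd x v G := by
  simp only [dd, pderiv_mul, map_add, map_mul, add_mul, Finset.sum_add_distrib, Finset.sum_mul,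
    Finset.mul_sum]
  congr 1 <;> exact Finset.sum_congr rfl fun i _ => by ring

/-- composition with a linear map -/
def Lp (L : (Fin n → ℂ) ≃ₗ[ℂ] (Fin n → ℂ)) (i : Fin n) : MvPolynomial (Fin n) ℂ :=
  ∑ k, C (L (Pi.single k 1) i) * X k

lemma L_apply (L : (Fin n → ℂ) ≃ₗ[ℂ] (Fin n → ℂ)) (x : Fin n → ℂ) (i : Fin n) :
    L x i = ∑ k, L (Pi.single k 1) i * x k := by
  have h : x = ∑ k, x k • (Pi.single k (1 : ℂ) : Fin n → ℂ) := by
    funext j
    rw [Finset.sum_apply, Finset.sum_eq_single j]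
    · simp
    · intro k _ hk
      simp [Pi.single_eq_of_ne hk.symm]
    · intro h; exact absurd (Finset.mem_univ _) h
  conv_lhs => rw [h]
  rw [map_sum, Finset.sum_apply]
  refine Finset.sum_congr rfl fun k _ => ?_
  rw [map_smul, Pi.smul_apply, smul_eq_mul, mul_comm]

lemma eval_Lp (L : (Fin n → ℂ) ≃ₗ[ℂ] (Fin n → ℂ)) (x : Fin n → ℂ) (i : Fin n) :
    eval x (Lp L i) = L x i := by
  rw [L_apply, Lp, map_sum]
  simp

lemma dd_Lp (L : (Fin n → ℂ) ≃ₗ[ℂ] (Fin n → ℂ)) (x v : Fin n → ℂ) (i : Fin n) :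
    dd x v (Lp L i) = L v i := by
  rw [L_apply, Lp]
  have : ∀ s : Finset (Fin n), dd x v (∑ k ∈ s, C (L (Pi.single k 1) i) * X k) =
      ∑ k ∈ s, L (Pi.single k 1) i * v k := by
    intro s
    classical
    induction s using Finset.induction_on with
    | empty => simp [dd]
    | insert a s ha ih =>
      rw [Finset.sum_insert ha, Finset.sum_insert ha, dd_add, dd_mul, dd_C, dd_X, ih]
      simp
  exact this _

/-- pull back of a polynomial along `L` -/
def pb (L : (Fin n → ℂ) ≃ₗ[ℂ] (Fin n → ℂ)) (F : MvPolynomial (Fin n) ℂ) :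
    MvPolynomial (Fin n) ℂ := bind₁ (Lp L) F

lemma eval_pb (L : (Fin n → ℂ) ≃ₗ[ℂ] (Fin n → ℂ)) (x : Fin n → ℂ)
    (F : MvPolynomial (Fin n) ℂ) : eval x (pb L F) = eval (L x) F := by
  have h1 : (eval x).comp ((bind₁ (Lp L) :
      MvPolynomial (Fin n) ℂ →ₐ[ℂ] MvPolynomial (Fin n) ℂ) :
      MvPolynomial (Fin n) ℂ →+* MvPolynomial (Fin n) ℂ) = eval (L x) := by
    apply MvPolynomial.ringHom_ext
    · intro r; simp
    · intro i; simp [eval_Lp]
  exact congrArg (fun f => f F) h1

lemma dd_pb (L : (Fin n → ℂ) ≃ₗ[ℂ] (Fin n → ℂ)) (x v : Fin n → ℂ)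
    (F : MvPolynomial (Fin n) ℂ) : dd x v (pb L F) = dd (L x) (L v) F := by
  induction F using MvPolynomial.induction_on with
  | C a => rw [pb, bind₁_C_right, dd_C, dd_C]
  | add p q hp hq =>
    have : pb L (p + q) = pb L p + pb L q := map_add _ _ _
    rw [this, dd_add, dd_add, hp, hq]
  | mul_X p i hp =>
    have : pb L (p * X i) = pb L p * Lp L i := by
      rw [pb, map_mul, bind₁_X_right]; rfl
    rw [this, dd_mul, dd_mul, hp, eval_pb, dd_Lp, eval_Lp, dd_X, eval_X]

lemma vanishes_zclosure (S : Set (Fin n → ℂ)) (F : MvPolynomial (Fin n) ℂ)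
    (h : Vanishes S F) : Vanishes (zclosure S) F := fun _ hx => hx F h

lemma vanishes_pb (L : (Fin n → ℂ) ≃ₗ[ℂ] (Fin n → ℂ)) (S S' : Set (Fin n → ℂ))
    (h : ∀ x ∈ S, L x ∈ S') (F : MvPolynomial (Fin n) ℂ) (hF : Vanishes S' F) :
    Vanishes S (pb L F) := fun x hx => by rw [eval_pb]; exact hF _ (h x hx)

lemma zclosure_map (L : (Fin n → ℂ) ≃ₗ[ℂ] (Fin n → ℂ)) (S S' : Set (Fin n → ℂ))
    (h : ∀ x ∈ S, L x ∈ S') (x : Fin n → ℂ) (hx : x ∈ zclosure S) : L x ∈ zclosure S' := by
  intro F hF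
  rw [← eval_pb]
  exact hx _ (vanishes_pb L S S' h F hF)

lemma tangent_map (L : (Fin n → ℂ) ≃ₗ[ℂ] (Fin n → ℂ)) (S S' : Set (Fin n → ℂ))
    (h : ∀ x ∈ S, L x ∈ S') (x v : Fin n → ℂ) (hv : v ∈ tangentSpace S x) :
    L v ∈ tangentSpace S' (L x) := by
  intro F hF
  have := hv _ (vanishes_pb L S S' h F hF)
  change dd x v (pb L F) = 0 at this
  rw [dd_pb] at this
  exact this

theorem transport : TransportStatement := by
  intro n L S S' b b' c N hS hc hb hN
  obtain ⟨D, hD0, hD⟩ := hN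
  have hSf : ∀ x ∈ S, L x ∈ S' := fun x hx => (hS x).1 hx
  have hSb : ∀ y ∈ S', L.symm y ∈ S := fun y hy => (hS _).2 (by
    rw [LinearEquiv.apply_symm_apply]; exact hy)
  have hX : ∀ x ∈ zclosure S, L x ∈ zclosure S' := zclosure_map L S S' hSf
  have hX' : ∀ y ∈ zclosure S', L.symm y ∈ zclosure S := zclosure_map L.symm S' S hSb
  have hT : ∀ x, tangentSpace (zclosure S') (L x) =
      (tangentSpace (zclosure S) x).map (L : (Fin n → ℂ) →ₗ[ℂ] (Fin n → ℂ)) := by
    intro x
    apply le_antisymm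
    · intro w hw
      refine ⟨L.symm w, ?_, by simp⟩
      have := tangent_map L.symm _ _ hX' _ _ hw
      rwa [LinearEquiv.symm_apply_apply] at this
    · rintro _ ⟨v, hv, rfl⟩
      exact tangent_map L _ _ hX _ _ hv
  have hfr : ∀ x, Module.finrank ℂ (tangentSpace (zclosure S') (L x)) =
      Module.finrank ℂ (tangentSpace (zclosure S) x) := by
    intro x
    rw [hT]
    exact LinearEquiv.finrank_map_eq L _
  have hsm : ∀ x, IsSmoothPoint (zclosure S) x ↔ IsSmoothPoint (zclosure S') (L x) := by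
    intro x
    constructor
    · rintro ⟨h1, h2⟩
      refine ⟨hX x h1, fun y hy => ?_⟩
      have h3 := h2 _ (hX' y hy)
      rw [hfr x]
      have h4 := hfr (L.symm y)
      rw [LinearEquiv.apply_symm_apply] at h4
      rw [h4]; exact h3
    · rintro ⟨h1, h2⟩
      refine ⟨?_, fun y hy => ?_⟩
      · have := hX' _ h1
        rwa [LinearEquiv.symm_apply_apply] at this
      · have h3 := h2 _ (hX y hy)
        rwa [hfr, hfr] at h3
  have hcrit : ∀ u, criticalPoints b' (zclosure S') (L u) =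
      L '' (criticalPoints b (zclosure S) u) := by
    intro u
    ext y
    constructor
    · rintro ⟨h1, h2⟩
      refine ⟨L.symm y, ⟨?_, fun v hv => ?_⟩, by simp⟩
      · rw [hsm, LinearEquiv.apply_symm_apply]; exact h1
      · have h3 := h2 (L v) (by
          have := tangent_map L _ _ hX _ _ hv
          rwa [LinearEquiv.apply_symm_apply] at this)
        have h4 : y - L u = L (L.symm y - u) := by rw [map_sub, LinearEquiv.apply_symm_apply]
        rw [h4, hb] at h3
        exact (mul_eq_zero.1 h3).resolve_left hc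
    · rintro ⟨x, ⟨h1, h2⟩, rfl⟩
      refine ⟨(hsm x).1 h1, fun v hv => ?_⟩
      rw [hT] at hv
      obtain ⟨w, hw, rfl⟩ := hv
      have h4 : L x - L u = L (x - u) := by rw [map_sub]
      rw [h4]
      have := hb (x - u) w
      rw [h2 w hw, mul_zero] at this
      exact this
  refine ⟨pb L D, ?_, fun u hu => ?_⟩
  · intro h0
    apply hD0
    apply MvPolynomial.funext
    intro w
    have h1 := eval_pb L (L.symm w) D
    rw [h0, LinearEquiv.apply_symm_apply, map_zero] at h1
    rw [map_zero]; exact h1.symm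
  · rw [eval_pb] at hu
    obtain ⟨h1, h2⟩ := hD _ hu
    rw [hcrit] at h1 h2
    refine ⟨(Set.finite_image_iff L.injective.injOn).1 h1, ?_⟩
    rw [← h2, Set.ncard_image_of_injective _ L.injective]

end

end Helper73_ED
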