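import Pool.Agent.Helper88_ED.OneRoot

open scoped Polynomial
open Polynomial

namespace Helper73_ED

noncomputable section

/-- resultant of two trinomials in `1, X^n, X^(n+1)` -/
lemma trinomial_resultant (n : ℕ) (hn : n ≠ 0) (a0 a1 a2 b0 b1 b2 : ℂ) (ha : a0 ≠ 0)
    (hm : a0 * b2 - a2 * b0 ≠ 0) :
    resultant (C a0 + C a1 * X ^ n + C a2 * X ^ (n + 1))
      (C b0 + C b1 * X ^ n + C b2 * X ^ (n + 1)) (n + 1) (n + 1) =
    (-1) ^ (n + 1) * ((a0 * b2 - a2 * b0) ^ (n + 1) +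
      (-(a0 * b1 - a1 * b0)) ^ n * (a1 * b2 - a2 * b1)) := by
  set f : ℂ[X] := C a0 + C a1 * X ^ n + C a2 * X ^ (n + 1) with hf
  set g : ℂ[X] := C b0 + C b1 * X ^ n + C b2 * X ^ (n + 1) with hg
  set m1 := a0 * b1 - a1 * b0 with hm1
  set m2 := a0 * b2 - a2 * b0 with hm2
  have hfd : f.natDegree ≤ n + 1 := by
    rw [hf]
    compute_degree
  have h1 : resultant f (C a0 * g) (n + 1) (n + 1) =
      a0 ^ (n + 1) * resultant f g (n + 1) (n + 1) := resultant_C_mul_right _ _ _ _ _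
  have h2 : resultant f (C a0 * g + f * C (-b0)) (n + 1) (n + 1) =
      resultant f (C a0 * g) (n + 1) (n + 1) :=
    resultant_add_mul_right _ _ _ _ _ (by rw [natDegree_C]; omega) hfd
  have h3 : C a0 * g + f * C (-b0) = X ^ n * (C m2 * (X + C (m1 / m2))) := by
    have : C m2 * (X + C (m1 / m2)) = C m2 * X + C m1 := by
      rw [mul_add, ← C_mul, mul_div_cancel₀ _ hm]
    rw [this, hf, hg, hm1, hm2]
    simp only [C_sub, C_mul, C_neg]
    ring
  have hnd : (C m2 * (X + C (m1 / m2)) : ℂ[X]).natDegree = 1 := by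
    rw [natDegree_C_mul hm, natDegree_X_add_C]
  have h4 : resultant f (X ^ n * (C m2 * (X + C (m1 / m2)))) (n + 1) (n + 1) =
      resultant f (X ^ n) (n + 1) n * resultant f (C m2 * (X + C (m1 / m2))) (n + 1) 1 := by
    have := resultant_mul_right f (X ^ n) (C m2 * (X + C (m1 / m2))) (n + 1) hfd
    rw [natDegree_X_pow, hnd] at this
    exact this
  have hf0 : f.coeff 0 = a0 := by
    rw [coeff_zero_eq_eval_zero, hf]
    simp [hn]
  have h5 : resultant f (X ^ n) (n + 1) n = a0 ^ n := by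
    rw [resultant_X_pow_right _ _ _ hfd, Even.neg_one_pow, one_mul, hf0]
    rw [mul_comm]; exact Nat.even_mul_succ_self n
  have h6 : resultant f (C m2 * (X + C (m1 / m2))) (n + 1) 1 =
      m2 ^ (n + 1) * ((-1) ^ (n + 1) * f.eval (-(m1 / m2))) := by
    rw [resultant_C_mul_right, resultant_X_add_C_right _ _ _ hfd]
  have h7 : m2 ^ (n + 1) * f.eval (-(m1 / m2)) =
      a0 * m2 ^ (n + 1) + a1 * (-m1) ^ n * m2 + a2 * (-m1) ^ (n + 1) := by
    have e1 : f.eval (-(m1 / m2)) = a0 + a1 * (-(m1 / m2)) ^ n + a2 * (-(m1 / m2)) ^ (n + 1) := by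
      rw [hf]; simp
    have e2 : m2 ^ n * (-(m1 / m2)) ^ n = (-m1) ^ n := by
      rw [← mul_pow]; congr 1; field_simp
    have e3 : m2 * (-(m1 / m2)) = -m1 := by field_simp
    rw [e1, pow_succ, pow_succ]
    linear_combination (a1 * m2 + a2 * m2 * (-(m1 / m2))) * e2 + a2 * (-m1) ^ n * e3
  have h8 : a0 ^ n * (a0 * resultant f g (n + 1) (n + 1)) = a0 ^ n * (a0 *
      ((-1) ^ (n + 1) * (m2 ^ (n + 1) + (-m1) ^ n * (a1 * b2 - a2 * b1)))) := by
    have : a0 ^ (n + 1) * resultant f g (n + 1) (n + 1) =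
        a0 ^ n * (m2 ^ (n + 1) * ((-1) ^ (n + 1) * f.eval (-(m1 / m2)))) := by
      rw [← h1, ← h2, h3, h4, h5, h6]
    rw [← mul_assoc, ← pow_succ, this]
    rw [show m2 ^ (n + 1) * ((-1) ^ (n + 1) * f.eval (-(m1 / m2))) =
      (-1) ^ (n + 1) * (m2 ^ (n + 1) * f.eval (-(m1 / m2))) by ring, h7, hm1, hm2]
    ring
  exact mul_left_cancel₀ ha (mul_left_cancel₀ (pow_ne_zero _ ha) h8)

/-- divisibility of the coefficients by powers of `X` -/
lemma aP_zero_eq (n : ℕ) : aP (n + 1) 0 =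
    C ((n : ℂ) + 1) * ((1 + X) ^ n - C (2 ^ n)) := by
  simp only [aP, Nat.add_sub_cancel, Nat.cast_add, Nat.cast_one, Nat.cast_zero, C_mul, C_sub,
    C_add, C_1, C_0, C_pow]
  ring

lemma bP_zero_eq (n : ℕ) : bP (n + 1) 0 =
    X * (C ((n : ℂ) + 1) * ((1 + X) ^ n - C (2 ^ n) * X ^ n)) := by
  simp only [bP, Nat.add_sub_cancel, Nat.cast_add, Nat.cast_one, Nat.cast_zero, C_mul, C_sub,
    C_add, C_1, C_0, C_pow]
  ring

lemma aP_last_eq (n : ℕ) : aP (n + 1) (n + 1) =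
    X * (C ((n : ℂ) + 1) * (C (2 ^ n) * X ^ n - (1 + X) ^ n)) := by
  simp only [aP, Nat.add_sub_cancel, Nat.cast_add, Nat.cast_one, C_mul, C_sub,
    C_add, C_1, C_pow, show C (2 : ℂ) = (2 : ℂ[X]) from rfl]
  ring

lemma bP_last_eq (n : ℕ) : bP (n + 1) (n + 1) =
    X ^ (n + 1) * (C ((n : ℂ) + 1) * (C (2 ^ n) - (1 + X) ^ n)) := by
  simp only [bP, Nat.add_sub_cancel, Nat.cast_add, Nat.cast_one, C_mul, C_sub,
    C_add, C_1, C_pow, show C (2 : ℂ) = (2 : ℂ[X]) from rfl]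
  ring

lemma bP_pen_eq (n : ℕ) : bP (n + 1) n =
    X ^ n * ((1 + X) ^ n * (X - C (n : ℂ)) + C (2 ^ n) * C ((n : ℂ) - 1) * X) := by
  simp only [bP, Nat.add_sub_cancel, Nat.cast_add, Nat.cast_one, C_mul, C_sub,
    C_add, C_1, C_pow, show C (2 : ℂ) = (2 : ℂ[X]) from rfl]
  ring

lemma aP_pen_eval (n : ℕ) (hn : n ≠ 0) : (aP (n + 1) n).eval 0 = 1 := by
  simp [aP, hn]

lemma mi_zero_last (n : ℕ) : mi (n + 2) 0 (n + 2) = X ^ 2 *
    (C ((n : ℂ) + 2) * C ((n : ℂ) + 2)) * (((1 + X) ^ (n + 1) - C (2 ^ (n + 1)) * X ^ (n + 1)) ^ 2 -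
      X ^ n * ((1 + X) ^ (n + 1) - C (2 ^ (n + 1))) ^ 2) := by
  have h0 := aP_zero_eq (n + 1)
  have h1 := bP_zero_eq (n + 1)
  have h2 := aP_last_eq (n + 1)
  have h3 := bP_last_eq (n + 1)
  have e : (((n + 1 : ℕ) : ℂ) + 1) = (n : ℂ) + 2 := by push_cast; ring
  rw [e] at h0 h1 h2 h3
  rw [show n + 1 + 1 = n + 2 from rfl] at h0 h1 h2 h3
  rw [mi, h0, h1, h2, h3]
  ring

lemma mi_zero_pen (n : ℕ) : mi (n + 2) 0 (n + 1) = X *
    (X ^ n * (C ((n : ℂ) + 2) * ((1 + X) ^ (n + 1) - C (2 ^ (n + 1)))) *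
      ((1 + X) ^ (n + 1) * (X - C ((n : ℂ) + 1)) + C (2 ^ (n + 1)) * C (n : ℂ) * X) -
      aP (n + 2) (n + 1) *
        (C ((n : ℂ) + 2) * ((1 + X) ^ (n + 1) - C (2 ^ (n + 1)) * X ^ (n + 1)))) := by
  have h0 := aP_zero_eq (n + 1)
  have h1 := bP_zero_eq (n + 1)
  have h4 := bP_pen_eq (n + 1)
  have e : (((n + 1 : ℕ) : ℂ) + 1) = (n : ℂ) + 2 := by push_cast; ring
  have e' : (((n + 1 : ℕ) : ℂ) - 1) = (n : ℂ) := by push_cast; ring
  have e'' : ((n + 1 : ℕ) : ℂ) = (n : ℂ) + 1 := by push_cast; ring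
  rw [e] at h0 h1
  rw [e', e''] at h4
  rw [show n + 1 + 1 = n + 2 from rfl] at h0 h1 h4
  rw [mi, h0, h1, h4]
  ring

lemma mi_pen_last (n : ℕ) : mi (n + 2) (n + 1) (n + 2) = X ^ (n + 2) *
    (aP (n + 2) (n + 1) * (C ((n : ℂ) + 2) * (C (2 ^ (n + 1)) - (1 + X) ^ (n + 1))) -
      (C ((n : ℂ) + 2) * (C (2 ^ (n + 1)) * X ^ (n + 1) - (1 + X) ^ (n + 1))) *
      ((1 + X) ^ (n + 1) * (X - C ((n : ℂ) + 1)) + C (2 ^ (n + 1)) * C (n : ℂ) * X)) := by
  have h2 := aP_last_eq (n + 1)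
  have h3 := bP_last_eq (n + 1)
  have h4 := bP_pen_eq (n + 1)
  have e : (((n + 1 : ℕ) : ℂ) + 1) = (n : ℂ) + 2 := by push_cast; ring
  have e' : (((n + 1 : ℕ) : ℂ) - 1) = (n : ℂ) := by push_cast; ring
  have e'' : ((n + 1 : ℕ) : ℂ) = (n : ℂ) + 1 := by push_cast; ring
  rw [e] at h2 h3
  rw [e', e''] at h4
  rw [show n + 1 + 1 = n + 2 from rfl] at h2 h3 h4
  rw [mi, h2, h3, h4]
  ring

lemma RU_special (d : ℕ) (hd : 4 ≤ d) : RU d (dl d 0 + dl d (d - 1) + dl d d) =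
    (-1) ^ d * ((mi d 0 d) ^ d + (-(mi d 0 (d - 1))) ^ (d - 1) * mi d (d - 1) d) := by
  obtain ⟨n, rfl⟩ : ∃ n, d = n + 1 := ⟨d - 1, by omega⟩
  simp only [Nat.add_sub_cancel]
  set U : Fin (n + 1 + 1) → ℂ := dl (n + 1) 0 + dl (n + 1) n + dl (n + 1) (n + 1) with hU
  have hUj : ∀ j : ℕ, ∀ h : j < n + 1 + 1, U ⟨j, h⟩ =
      if j = 0 then 1 else if j = n then 1 else if j = n + 1 then 1 else 0 := by
    intro j h
    simp only [hU, Pi.add_apply, dl]
    split_ifs <;> first | omega | simp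
  have hf : fU (n + 1) U = C (aP (n + 1) 0) + C (aP (n + 1) n) * X ^ n +
      C (aP (n + 1) (n + 1)) * X ^ (n + 1) := by
    ext1 j
    rw [Helper88_ED.fU_coeff, coeff_add, coeff_add, coeff_C, coeff_C_mul_X_pow,
      coeff_C_mul_X_pow]
    split_ifs <;> first | omega | skip
    all_goals (first | rw [hUj] | skip)
    all_goals simp_all
  have hg : gU (n + 1) U = C (bP (n + 1) 0) + C (bP (n + 1) n) * X ^ n +
      C (bP (n + 1) (n + 1)) * X ^ (n + 1) := by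
    ext1 j
    rw [Helper88_ED.gU_coeff, coeff_add, coeff_add, coeff_C, coeff_C_mul_X_pow,
      coeff_C_mul_X_pow]
    split_ifs <;> first | omega | skip
    all_goals (first | rw [hUj] | skip)
    all_goals simp_all
  have hne : aP (n + 1) 0 * mi (n + 1) 0 (n + 1) ≠ 0 := by
    obtain ⟨m, rfl⟩ : ∃ m, n = m + 2 := ⟨n - 2, by omega⟩
    have hc : ((m : ℂ) + 1 + 2) ≠ 0 := by exact_mod_cast (by omega : m + 1 + 2 ≠ 0)
    refine mul_ne_zero ?_ ?_
    · intro h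
      have h1 := congrArg (eval 0) h
      rw [aP_zero_eq] at h1
      simp only [eval_mul, eval_C, eval_sub, eval_pow, eval_add, eval_one, eval_X, add_zero,
        one_pow, eval_zero, mul_eq_zero] at h1
      rcases h1 with h1 | h1
      · apply hc; push_cast at h1; linear_combination h1
      · have : (2 : ℂ) ^ (m + 2) = 1 := by linear_combination -h1
        have h3 : (2 : ℕ) ^ (m + 2) = 1 := by exact_mod_cast this
        have h4 : 2 ≤ 2 ^ (m + 2) := by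
          calc 2 = 2 ^ 1 := by norm_num
            _ ≤ 2 ^ (m + 2) := Nat.pow_le_pow_right (by norm_num) (by omega)
        omega
    · intro h
      rw [show m + 2 + 1 = (m + 1) + 2 from by ring, mi_zero_last] at h
      have h5 : (X ^ 2 * (C (((m + 1 : ℕ) : ℂ) + 2) * C (((m + 1 : ℕ) : ℂ) + 2)) : ℂ[X]) ≠ 0 := by
        refine mul_ne_zero (pow_ne_zero _ X_ne_zero) (mul_ne_zero ?_ ?_) <;>
        · rw [Ne, C_eq_zero]
          push_cast
          exact hc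
      have h6 := (mul_eq_zero.1 h).resolve_left h5
      have h7 := congrArg (eval 0) h6
      simp at h7
  refine eq_of_infinite_eval_eq _ _ ?_
  have hfin : {y : ℂ | (aP (n + 1) 0 * mi (n + 1) 0 (n + 1)).eval y = 0}.Finite := by
    refine (Multiset.finite_toSet (aP (n + 1) 0 * mi (n + 1) 0 (n + 1)).roots).subset ?_
    intro y hy
    exact (mem_roots hne).2 hy
  refine hfin.infinite_compl.mono ?_
  intro y hy
  simp only [Set.mem_compl_iff, Set.mem_ofPred_eq, eval_mul, mul_eq_zero, not_or] at hy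
  obtain ⟨h0, h2⟩ := hy
  have h2' : (aP (n + 1) 0).eval y * (bP (n + 1) (n + 1)).eval y -
      (aP (n + 1) (n + 1)).eval y * (bP (n + 1) 0).eval y ≠ 0 := by
    simpa only [mi, eval_sub, eval_mul] using h2
  have key := trinomial_resultant n (by omega) _ ((aP (n + 1) n).eval y) _ _
    ((bP (n + 1) n).eval y) _ h0 h2'
  simp only [Set.mem_ofPred_eq]
  have em : ∀ p q r : ℂ[X], map (evalRingHom y) (C p + C q * X ^ n + C r * X ^ (n + 1)) =
      C (p.eval y) + C (q.eval y) * X ^ n + C (r.eval y) * X ^ (n + 1) := by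
    intro p q r
    simp only [Polynomial.map_add, Polynomial.map_mul, Polynomial.map_pow, map_C, map_X,
      coe_evalRingHom]
  rw [Helper88_ED.RU_eval, hf, hg, em, em, key]
  simp only [mi, eval_mul, eval_add, eval_pow, eval_neg, eval_one, eval_sub]

lemma spec_aux {A : Type*} [CommRing A] (x P Q R : A) (n : ℕ) :
    (-1) ^ (n + 2) * ((x ^ 2 * R) ^ (n + 2) + (-(x * P)) ^ (n + 1) * (x ^ (n + 2) * Q)) =
    ((-1) ^ (n + 2) * (x * R ^ (n + 2) + (-P) ^ (n + 1) * Q)) * x ^ ((n + 1) + (n + 2)) := by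
  have h1 : (-(x * P)) ^ (n + 1) = x ^ (n + 1) * (-P) ^ (n + 1) := by
    rw [← mul_pow]; congr 1; ring
  rw [h1, mul_pow, ← pow_mul, show 2 * (n + 2) = (n + 1) + (n + 2) + 1 from by ring]
  rw [pow_succ x ((n + 1) + (n + 2)), pow_add x (n + 1) (n + 2)]
  ring

/-- Module A5. -/
theorem specialOne : SpecialOneStatement := by
  intro d hd
  rw [RU_special d hd]
  obtain ⟨n, rfl⟩ : ∃ n, d = n + 2 := ⟨d - 2, by omega⟩
  have hn : n ≠ 0 := by omega
  rw [show n + 2 - 1 = n + 1 from by omega, mi_zero_last, mi_zero_pen, mi_pen_last]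
  set P : ℂ[X] := (X ^ n * (C ((n : ℂ) + 2) * ((1 + X) ^ (n + 1) - C (2 ^ (n + 1)))) *
      ((1 + X) ^ (n + 1) * (X - C ((n : ℂ) + 1)) + C (2 ^ (n + 1)) * C (n : ℂ) * X) -
      aP (n + 2) (n + 1) *
        (C ((n : ℂ) + 2) * ((1 + X) ^ (n + 1) - C (2 ^ (n + 1)) * X ^ (n + 1)))) with hP
  set Q : ℂ[X] := (aP (n + 2) (n + 1) * (C ((n : ℂ) + 2) * (C (2 ^ (n + 1)) - (1 + X) ^ (n + 1))) -
      (C ((n : ℂ) + 2) * (C (2 ^ (n + 1)) * X ^ (n + 1) - (1 + X) ^ (n + 1))) *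
      ((1 + X) ^ (n + 1) * (X - C ((n : ℂ) + 1)) + C (2 ^ (n + 1)) * C (n : ℂ) * X)) with hQ
  set R : ℂ[X] := (C ((n : ℂ) + 2) * C ((n : ℂ) + 2)) *
    (((1 + X) ^ (n + 1) - C (2 ^ (n + 1)) * X ^ (n + 1)) ^ 2 -
      X ^ n * ((1 + X) ^ (n + 1) - C (2 ^ (n + 1))) ^ 2) with hR
  have ha : (aP (n + 2) (n + 1)).eval 0 = 1 := aP_pen_eval (n + 1) (by omega)
  have hP0 : P.eval 0 = -((n : ℂ) + 2) := by
    rw [hP]
    simp [ha, hn]
  have hQ0 : Q.eval 0 = ((n : ℂ) + 2) * (2 ^ (n + 1) - ((n : ℂ) + 2)) := by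
    have z1 : ((1 + X) ^ (n + 1) : ℂ[X]).eval 0 = 1 := by
      rw [eval_pow, eval_add, eval_one, eval_X, add_zero, one_pow]
    have z2 : (X ^ (n + 1) : ℂ[X]).eval 0 = 0 := by
      rw [eval_pow, eval_X, zero_pow (Nat.succ_ne_zero n)]
    rw [hQ, eval_sub, eval_mul, eval_mul, eval_mul, eval_mul, eval_sub, eval_sub, eval_add,
      eval_mul, eval_mul, eval_mul, eval_mul, z1, z2, ha, eval_sub]
    simp only [eval_C, eval_X]
    ring
  have e : (-1) ^ (n + 2) * ((X ^ 2 * (C ((n : ℂ) + 2) * C ((n : ℂ) + 2)) *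
      (((1 + X) ^ (n + 1) - C (2 ^ (n + 1)) * X ^ (n + 1)) ^ 2 -
        X ^ n * ((1 + X) ^ (n + 1) - C (2 ^ (n + 1))) ^ 2)) ^ (n + 2) +
      (-(X * P)) ^ (n + 1) * (X ^ (n + 2) * Q)) =
      ((-1) ^ (n + 2) * (X * R ^ (n + 2) + (-P) ^ (n + 1) * Q)) * X ^ (2 * (n + 2) - 1) := by
    rw [show 2 * (n + 2) - 1 = (n + 1) + (n + 2) from by omega, ← spec_aux, hR, mul_assoc (X ^ 2)]
  rw [e]
  have := coeff_mul_X_pow ((-1) ^ (n + 2) * (X * R ^ (n + 2) + (-P) ^ (n + 1) * Q))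
    (2 * (n + 2) - 1) 0
  rw [zero_add] at this
  rw [this, coeff_zero_eq_eval_zero]
  simp only [eval_mul, eval_pow, eval_neg, eval_one, eval_add, eval_X, zero_mul, zero_add,
    hP0, hQ0, neg_neg]
  have hc : ((n : ℂ) + 2) ≠ 0 := by exact_mod_cast (by omega : n + 2 ≠ 0)
  refine mul_ne_zero (pow_ne_zero _ (by norm_num)) (mul_ne_zero (pow_ne_zero _ hc)
    (mul_ne_zero hc ?_))
  intro h
  have h2 : (2 : ℂ) ^ (n + 1) = (n : ℂ) + 2 := by linear_combination h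
  have h3 : (2 : ℕ) ^ (n + 1) = n + 2 := by exact_mod_cast h2
  have h4 : n + 1 < 2 ^ n := by
    have : ∀ m : ℕ, 2 ≤ m → m + 1 < 2 ^ m := by
      intro m hm
      induction m, hm using Nat.le_induction with
      | base => norm_num
      | succ k _ ih => rw [pow_succ]; omega
    exact this n (by omega)
  rw [pow_succ] at h3
  omega

end

end Helper73_ED
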