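import Pool.Agent.Helper73_ED.Defs

/-!
# Module statements for the ED degree of `σ₂(v_d)` (each is proved in a file of its own)
-/

open MvPolynomial
open scoped Polynomial

namespace Helper73_ED

noncomputable section

/-! ## Transport -/

/-- T1: the ED degree is invariant under linear isomorphisms respecting the forms. -/
def TransportStatement : Prop :=
  ∀ (n : ℕ) (L : (Fin n → ℂ) ≃ₗ[ℂ] (Fin n → ℂ)) (S S' : Set (Fin n → ℂ))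
    (b b' : (Fin n → ℂ) → (Fin n → ℂ) → ℂ) (c : ℂ) (N : ℕ),
    (∀ x, x ∈ S ↔ L x ∈ S') → c ≠ 0 → (∀ x y, b' (L x) (L y) = c * b x y) →
    IsEDDegree b' (zclosure S') N → IsEDDegree b (zclosure S) N

/-- T2: isotropic coordinates. -/
def IsometryStatement : Prop :=
  ∀ d : ℕ, ∃ L : (Fin (d + 1) → ℂ) ≃ₗ[ℂ] (Fin (d + 1) → ℂ),
    (∀ a b : ℂ, L (powerForm d a b) = pw d (a + Complex.I * b) (a - Complex.I * b)) ∧
    ∀ f g, BY d (L f) (L g) = 2 ^ d * frobenius d f g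

/-! ## Geometry of the model -/

/-- G1: tangent space at a sum of two distinct finite powers. -/
def TangentTwoStatement : Prop :=
  ∀ d : ℕ, 4 ≤ d → ∀ s t α β : ℂ, s ≠ t → α ≠ 0 → β ≠ 0 →
    (α • mom d 0 s + β • mom d 0 t) ∈ zclosure (secY d) ∧
    tangentSpace (zclosure (secY d)) (α • mom d 0 s + β • mom d 0 t) =
      Submodule.span ℂ {mom d 0 s, mom d 1 s, mom d 0 t, mom d 1 t} ∧
    Module.finrank ℂ
      (tangentSpace (zclosure (secY d)) (α • mom d 0 s + β • mom d 0 t)) = 4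

/-- G2: one of the two points is at infinity. -/
def TangentInfStatement : Prop :=
  ∀ d : ℕ, 4 ≤ d → ∀ s α β : ℂ, α ≠ 0 → β ≠ 0 →
    mom d 0 s ∈ tangentSpace (zclosure (secY d)) (α • mom d 0 s + β • dl d 0) ∧
    mom d 1 s ∈ tangentSpace (zclosure (secY d)) (α • mom d 0 s + β • dl d 0) ∧
    dl d 0 ∈ tangentSpace (zclosure (secY d)) (α • mom d 0 s + β • dl d 0) ∧
    dl d 1 ∈ tangentSpace (zclosure (secY d)) (α • mom d 0 s + β • dl d 0) ∧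
    4 ≤ Module.finrank ℂ
      (tangentSpace (zclosure (secY d)) (α • mom d 0 s + β • dl d 0))

/-- G3: points on a tangent line at a finite point. -/
def TangentDoubleStatement : Prop :=
  ∀ d : ℕ, 4 ≤ d → ∀ s α β : ℂ, β ≠ 0 →
    (∀ k < 4, mom d k s ∈
      tangentSpace (zclosure (secY d)) (α • mom d 0 s + β • mom d 1 s)) ∧
    4 ≤ Module.finrank ℂ
      (tangentSpace (zclosure (secY d)) (α • mom d 0 s + β • mom d 1 s))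

/-- G4: points on the tangent line at infinity. -/
def TangentDoubleInfStatement : Prop :=
  ∀ d : ℕ, 4 ≤ d → ∀ α β : ℂ, β ≠ 0 →
    dl d 0 ∈ tangentSpace (zclosure (secY d)) (α • dl d 0 + β • dl d 1) ∧
    4 ≤ Module.finrank ℂ
      (tangentSpace (zclosure (secY d)) (α • dl d 0 + β • dl d 1))

/-- G5: at points of the cone over the curve the tangent space is everything. -/
def TangentOneStatement : Prop :=
  ∀ d : ℕ, 1 ≤ d → ∀ α z w : ℂ, tangentSpace (zclosure (secY d)) (α • pw d z w) = ⊤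

/-- G6: classification of the points of the secant variety. -/
def ClassificationStatement : Prop :=
  ∀ d : ℕ, 4 ≤ d → ∀ x ∈ zclosure (secY d),
    (∃ s t α β : ℂ, s ≠ t ∧ α ≠ 0 ∧ β ≠ 0 ∧ x = α • mom d 0 s + β • mom d 0 t) ∨
    (∃ s α β : ℂ, α ≠ 0 ∧ β ≠ 0 ∧ x = α • mom d 0 s + β • dl d 0) ∨
    (∃ s α β : ℂ, β ≠ 0 ∧ x = α • mom d 0 s + β • mom d 1 s) ∨
    (∃ α β : ℂ, β ≠ 0 ∧ x = α • dl d 0 + β • dl d 1) ∨
    (∃ α z w : ℂ, x = α • pw d z w)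

/-- U1: uniqueness of the decomposition. -/
def UniqueStatement : Prop :=
  ∀ d : ℕ, 3 ≤ d → ∀ s t s' t' α β α' β' : ℂ, s ≠ t → s' ≠ t' →
    α ≠ 0 → β ≠ 0 → α' ≠ 0 → β' ≠ 0 →
    α • mom d 0 s + β • mom d 0 t = α' • mom d 0 s' + β' • mom d 0 t' →
    (s = s' ∧ t = t' ∧ α = α' ∧ β = β') ∨ (s = t' ∧ t = s' ∧ α = β' ∧ β = α')

/-- the critical equations at `α (s,1)^d + β (t,1)^d` -/
def Cond (d : ℕ) (u : Fin (d + 1) → ℂ) (s t α β : ℂ) : Prop :=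
  BY d (α • mom d 0 s + β • mom d 0 t - u) (mom d 0 s) = 0 ∧
  BY d (α • mom d 0 s + β • mom d 0 t - u) (mom d 1 s) = 0 ∧
  BY d (α • mom d 0 s + β • mom d 0 t - u) (mom d 0 t) = 0 ∧
  BY d (α • mom d 0 s + β • mom d 0 t - u) (mom d 1 t) = 0

/-- the coefficients of the polynomial `B(u, (σ,1)^d)` in `σ` -/
def toU (d : ℕ) (u : Fin (d + 1) → ℂ) : Fin (d + 1) → ℂ := fun j => (d.choose j : ℂ) * u j

/-- C1: the critical equations in terms of `F₁`, `F₂`. -/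
def CondIffStatement : Prop :=
  ∀ d : ℕ, 4 ≤ d → ∀ (u : Fin (d + 1) → ℂ) (r s : ℂ), r ≠ 0 → r ≠ 1 → s ≠ 0 →
    ((∃ α β : ℂ, Cond d u s (r * s) α β) ↔
      (F1 d (toU d u) r s = 0 ∧ F2 d (toU d u) r s = 0)) ∧
    ∀ α β α' β' : ℂ, Cond d u s (r * s) α β → Cond d u s (r * s) α' β' → α = α' ∧ β = β'

/-- D1: the image of a polynomial map `ℂ^m → ℂ^n`, `m < n`, lies in a hypersurface. -/
def DimStatement : Prop :=
  ∀ (m n : ℕ) (φ : Fin n → MvPolynomial (Fin m) ℂ), m < n →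
    ∃ D : MvPolynomial (Fin n) ℂ, D ≠ 0 ∧
      ∀ y : Fin m → ℂ, eval (fun i => eval y (φ i)) D = 0

/-- B1: outside a hypersurface the degenerate critical systems have no solution. -/
def BadStatement : Prop :=
  ∀ d : ℕ, 4 ≤ d → ∃ D : MvPolynomial (Fin (d + 1)) ℂ, D ≠ 0 ∧
    ∀ u : Fin (d + 1) → ℂ, eval u D ≠ 0 →
      (u 0 ≠ 0 ∧ u (Fin.last d) ≠ 0) ∧
      (∀ s α β : ℂ, ¬ ∀ k < 4, BY d (α • mom d 0 s + β • mom d 1 s - u) (mom d k s) = 0) ∧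
      (∀ s α β : ℂ, ¬ (BY d (α • mom d 0 s + β • dl d 0 - u) (mom d 0 s) = 0 ∧
        BY d (α • mom d 0 s + β • dl d 0 - u) (mom d 1 s) = 0 ∧
        BY d (α • mom d 0 s + β • dl d 0 - u) (dl d 0) = 0 ∧
        BY d (α • mom d 0 s + β • dl d 0 - u) (dl d 1) = 0)) ∧
      (∀ t α β : ℂ, t ≠ 0 → ¬ Cond d u 0 t α β) ∧
      (∀ s α β : ℂ, s ≠ 0 → ¬ Cond d u s (-s) α β) ∧
      (∀ s t β : ℂ, s ≠ t → ¬ Cond d u s t 0 β)

/-! ## Algebra -/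

/-- A1 -/
def OrdZeroStatement : Prop :=
  ∀ d : ℕ, 4 ≤ d → ∀ U : Fin (d + 1) → ℂ, (Polynomial.X : ℂ[X]) ^ (2 * d - 1) ∣ RU d U

/-- A2a -/
def CongrStatement : Prop :=
  ∀ d j : ℕ, 4 ≤ d → j ≤ d →
    (Polynomial.X - 1 : ℂ[X]) ∣ (aP d j).comp (Polynomial.X ^ 2) ∧
    (Polynomial.X - 1 : ℂ[X]) ^ 4 ∣ Polynomial.X ^ d * (aP d j).comp (Polynomial.X ^ 2) +
      (bP d j).comp (Polynomial.X ^ 2)

/-- A2 -/
def OrdOneStatement : Prop :=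
  ∀ d : ℕ, 4 ≤ d → ∀ U : Fin (d + 1) → ℂ, (Polynomial.X - 1 : ℂ[X]) ^ (5 * d) ∣ RU d U

/-- A3 -/
def PalinStatement : Prop :=
  ∀ d : ℕ, 4 ≤ d → ∀ U : Fin (d + 1) → ℂ, (RU d U).natDegree ≤ 3 * d ^ 2 ∧
    ∀ n ≤ 3 * d ^ 2, (RU d U).coeff n = (-1) ^ d * (RU d U).coeff (3 * d ^ 2 - n)

/-- A4a -/
def SpecialZeroStatement : Prop :=
  ∀ d : ℕ, 4 ≤ d → RU d (dl d 0 + dl d d) = (mi d d 0) ^ d

/-- A4b -/
def MinorOrderStatement : Prop :=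
  ∀ d : ℕ, 4 ≤ d → ∃ Q : ℂ[X], mi d d 0 = Polynomial.X ^ 2 * (Polynomial.X - 1) ^ 5 * Q ∧
    Q.eval 0 ≠ 0 ∧ Q.eval 1 ≠ 0

/-- A5 -/
def SpecialOneStatement : Prop :=
  ∀ d : ℕ, 4 ≤ d → (RU d (dl d 0 + dl d (d - 1) + dl d d)).coeff (2 * d - 1) ≠ 0

/-- A6 -/
def MinorsStatement : Prop :=
  ∀ d : ℕ, 4 ≤ d → ∀ c : ℂ, c ≠ 0 → c ≠ 1 →
    (∃ i j : ℕ, i < j ∧ j ≤ d ∧ (mi d i j).eval c ≠ 0) ∧
    ((aP d 0).eval c ≠ 0 ∨ (bP d 0).eval c ≠ 0) ∧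
    ((aP d d).eval c ≠ 0 ∨ (bP d d).eval c ≠ 0)

/-- A7 -/
def TwoRootsStatement : Prop :=
  ∀ d : ℕ, 1 ≤ d → ∀ (U : Fin (d + 1) → ℂ) (r s s' : ℂ), s ≠ s' →
    F1 d U r s = 0 → F2 d U r s = 0 → F1 d U r s' = 0 → F2 d U r s' = 0 →
    (Polynomial.X - Polynomial.C r : ℂ[X]) ^ 2 ∣ RU d U

/-- A8 -/
def OneRootStatement : Prop :=
  ∀ d : ℕ, 4 ≤ d → ∀ (U : Fin (d + 1) → ℂ) (r : ℂ), r ≠ 0 → r ≠ 1 → U 0 ≠ 0 →
    U (Fin.last d) ≠ 0 →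
    ((RU d U).eval r = 0 ↔ ∃ s : ℂ, s ≠ 0 ∧ F1 d U r s = 0 ∧ F2 d U r s = 0)

/-- A9 -/
def AlgCountStatement : Prop :=
  ∀ d : ℕ, 4 ≤ d → ∃ D : MvPolynomial (Fin (d + 1)) ℂ, D ≠ 0 ∧
    ∀ U : Fin (d + 1) → ℂ, eval U D ≠ 0 →
      (Sol d U).Finite ∧ (Sol d U).ncard = 3 * d ^ 2 - 9 * d + 2

/-- final statement -/
def MainStatement : Prop :=
  ∀ d : ℕ, 4 ≤ d → IsEDDegree (frobenius d) (secantCone d) (edNumber d)

end

end Helper73_ED
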